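import Pool.Agent.Lib.THU.FA.Ord

/-!
Stabilisers of cusps, the map of cusps induced by an automorphism keeping the parabolics.
-/

namespace Pool.Agent.Lib.THU.FA

open OnePoint

/-- equal up to sign -/
def PM (A B : GZ) : Prop := A = B ∨ A = -B

theorem PM.refl (A : GZ) : PM A A := Or.inl rfl

theorem PM.symm {A B : GZ} (h : PM A B) : PM B A := by
  rcases h with rfl | rfl
  · exact Or.inl rfl
  · exact Or.inr (neg_neg _).symm

theorem PM.trans {A B C : GZ} (h : PM A B) (k : PM B C) : PM A C := by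
  rcases h with rfl | rfl <;> rcases k with rfl | rfl <;> simp [PM]

theorem PM.mul {A B C E : GZ} (h : PM A B) (k : PM C E) : PM (A * C) (B * E) := by
  rcases h with rfl | rfl <;> rcases k with rfl | rfl <;> simp [PM]

theorem PM.inv {A B : GZ} (h : PM A B) : PM A⁻¹ B⁻¹ := by
  rcases h with rfl | rfl <;> simp [PM, inv_neg]

theorem PM.zpow {A B : GZ} (h : PM A B) (k : ℤ) : PM (A ^ k) (B ^ k) := by
  induction k using Int.induction_on with
  | zero => simp [PM]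
  | succ k ih => rw [zpow_add_one, zpow_add_one]; exact ih.mul h
  | pred k ih => rw [zpow_sub_one, zpow_sub_one]; exact ih.mul h.inv

theorem PM.smul {A B : GZ} (h : PM A B) (p : P) : A • p = B • p := by
  rcases h with rfl | rfl
  · rfl
  · exact neg_smul' _ _

/-- the translation by `n` -/
noncomputable def Tn (n : ℤ) : GZ := mk 1 n 0 1 (by simp)

theorem gz_ext {A B : GZ} (h1 : A 0 0 = B 0 0) (h2 : A 0 1 = B 0 1) (h3 : A 1 0 = B 1 0)
    (h4 : A 1 1 = B 1 1) : A = B := by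
  ext i j; fin_cases i <;> fin_cases j <;> assumption

theorem gz_mul (A B : GZ) (i j : Fin 2) : (A * B) i j = A i 0 * B 0 j + A i 1 * B 1 j := by
  simp [Matrix.mul_apply, Fin.sum_univ_two]

theorem Tn_add (a b : ℤ) : Tn (a + b) = Tn a * Tn b := by
  apply gz_ext <;> simp [gz_mul, Tn, add_comm, -Units.val_mul]

theorem Tn_zero : Tn 0 = 1 := by apply gz_ext <;> simp [Tn]

theorem Tn_neg (a : ℤ) : Tn (-a) = (Tn a)⁻¹ := by
  rw [eq_inv_iff_mul_eq_one, ← Tn_add]; simp [Tn_zero]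

theorem Tn_zpow (a k : ℤ) : Tn a ^ k = Tn (k * a) := by
  induction k using Int.induction_on with
  | zero => simp [Tn_zero]
  | succ k ih => rw [zpow_add_one, ih, ← Tn_add]; congr 1; ring
  | pred k ih => rw [zpow_sub_one, ih, ← Tn_neg, ← Tn_add]; congr 1; ring

theorem Tn_inf (n : ℤ) : Tn n • (∞ : P) = ∞ := (smul_inf_iff _).2 rfl

theorem Tn_coe (n : ℤ) (q : ℚ) : Tn n • (q : P) = ((q + n : ℚ) : P) := by
  rw [smul_def, smul_some_eq_ite]; simp [Tn]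

theorem Tn_inj {a b : ℤ} (h : PM (Tn a) (Tn b)) : a = b := by
  have := h.smul ((0 : ℚ) : P)
  simpa [Tn_coe] using this

/-- an element fixing `∞` is a translation up to sign, or has order two -/
theorem tri {A : GZ} (h : A • (∞ : P) = ∞) : (∃ n, PM A (Tn n)) ∨ A ^ 2 = 1 := by
  rw [smul_inf_iff] at h
  have hd := det_eq A
  rw [h, mul_zero, sub_zero] at hd
  rcases hd with hd | hd
  · left
    rcases Int.eq_one_or_neg_one_of_mul_eq_one' hd with ⟨h1, h2⟩ | ⟨h1, h2⟩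
    · exact ⟨A 0 1, Or.inl (by apply gz_ext <;> simp [Tn, h, h1, h2])⟩
    · exact ⟨-A 0 1, Or.inr (by apply gz_ext <;> simp [Tn, h, h1, h2])⟩
  · right
    rcases Int.eq_one_or_neg_one_of_mul_eq_neg_one' hd with ⟨h1, h2⟩ | ⟨h1, h2⟩ <;>
      (apply gz_ext <;> simp [sq, gz_mul, h, h1, h2, -Units.val_mul])

variable {F : Type} [Group F] {σ : F →* GZ}

theorem Lat.eq (hσ : Lat σ) {x y : F} (h : PM (σ x) (σ y)) : x = y := by
  rw [← mul_inv_eq_one]
  apply hσ.inj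
  have := h.mul (PM.refl (σ y)⁻¹)
  simpa [PM] using this

theorem Lat.par (hσ : Lat σ) {x : F} {B : GZ} (h : σ x • B • (∞ : P) = B • (∞ : P)) :
    ∃ n, PM (σ x) (B * Tn n * B⁻¹) := by
  have h1 : (B⁻¹ * σ x * B) • (∞ : P) = ∞ := by rw [mul_smul, mul_smul, h, inv_smul_smul]
  rcases tri h1 with ⟨n, hn⟩ | h2
  · exact ⟨n, by simpa [mul_assoc] using ((PM.refl B).mul hn).mul (PM.refl B⁻¹)⟩
  · have : σ (x ^ 2) = 1 := by
      have e : σ (x ^ 2) = B * (B⁻¹ * σ x * B) ^ 2 * B⁻¹ := by simp [sq, mul_assoc]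
      rw [e, h2]; simp
    have hx := hσ.tf x 2 two_pos (hσ.inj _ (Or.inl this))
    exact ⟨0, by simp [hx, Tn_zero, PM]⟩

/-- a nontrivial element fixes at most one cusp -/
theorem Lat.fix1 (hσ : Lat σ) {x : F} (hx : x ≠ 1) {p q : P} (hp : σ x • p = p)
    (hq : σ x • q = q) : p = q := by
  obtain ⟨B, rfl⟩ := exists_inf p
  obtain ⟨n, hn⟩ := hσ.par hp
  have hn0 : n ≠ 0 := by
    rintro rfl
    exact hx (hσ.inj x (by simpa [Tn_zero, PM] using hn))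
  rw [hn.smul, mul_smul, mul_smul, smul_eq_iff_eq_inv_smul] at hq
  rw [smul_eq_iff_eq_inv_smul]
  generalize B⁻¹ • q = r at hq
  cases r using OnePoint.rec with
  | infty => rfl
  | coe r => simp [Tn_coe, hn0] at hq

theorem Lat.comm (hσ : Lat σ) {x y : F} {p : P} (hx : σ x • p = p) (hy : σ y • p = p) :
    Commute x y := by
  obtain ⟨B, rfl⟩ := exists_inf p
  obtain ⟨n, hn⟩ := hσ.par hx
  obtain ⟨k, hk⟩ := hσ.par hy
  apply hσ.eq
  rw [map_mul, map_mul]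
  refine (hn.mul hk).trans (PM.trans (Or.inl ?_) (hk.mul hn).symm)
  simp [mul_assoc, ← mul_assoc (Tn _) (Tn _), ← Tn_add, add_comm]

theorem Lat.fix_of_comm (hσ : Lat σ) {x y : F} (hx : x ≠ 1) {p : P} (hp : σ x • p = p)
    (h : Commute x y) : σ y • p = p :=
  hσ.fix1 hx (by rw [← mul_smul, ← map_mul, h.eq, map_mul, mul_smul, hp]) hp

theorem Lat.exists_par (hσ : Lat σ) (B : GZ) :
    ∃ (x : F) (n : ℤ), 0 < n ∧ σ x = B * Tn n * B⁻¹ := by
  obtain ⟨S, hS⟩ := hσ.fin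
  choose x C hC e using fun k : ℤ => hS (B * Tn k)
  obtain ⟨k, l, hkl, h⟩ := Finite.exists_ne_map_eq_of_infinite (fun k => (⟨C k, hC k⟩ : S))
  have h' : C k = C l := congrArg Subtype.val h
  have key : ∀ k l, C k = C l → σ (x k * (x l)⁻¹) = B * Tn (k - l) * B⁻¹ := by
    intro k l h
    have e1 : σ (x k) = B * Tn k * (C k)⁻¹ := by rw [e k]; simp
    have e2 : σ (x l) = B * Tn l * (C l)⁻¹ := by rw [e l]; simp
    rw [map_mul, map_inv, e1, e2, h, sub_eq_add_neg, Tn_add, Tn_neg]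
    group
  rcases lt_or_gt_of_ne hkl with h | h
  · exact ⟨_, _, sub_pos.2 h, key l k h'.symm⟩
  · exact ⟨_, _, sub_pos.2 h, key k l h'⟩

theorem par_fix (B : GZ) (n : ℤ) : (B * Tn n * B⁻¹) • B • (∞ : P) = B • (∞ : P) := by
  rw [mul_smul, mul_smul, inv_smul_smul, Tn_inf]

theorem ne_one_of_par {x : F} {B : GZ} {n : ℤ} (hn : n ≠ 0) (h : PM (σ x) (B * Tn n * B⁻¹)) :
    x ≠ 1 := by
  rintro rfl
  apply hn
  apply Tn_inj
  simpa [mul_assoc, Tn_zero] using (((PM.refl B⁻¹).mul h).mul (PM.refl B)).symm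

/-- the stabiliser of a cusp is infinite cyclic -/
theorem Lat.stab (hσ : Lat σ) (p : P) :
    ∃ c : F, c ≠ 1 ∧ ∀ x, σ x • p = p ↔ x ∈ Subgroup.zpowers c := by
  obtain ⟨B, rfl⟩ := exists_inf p
  let H : AddSubgroup ℤ :=
    { carrier := {n | ∃ x, PM (σ x) (B * Tn n * B⁻¹)}
      zero_mem' := ⟨1, by simp [Tn_zero, PM]⟩
      add_mem' := by
        rintro a b ⟨x, hx⟩ ⟨y, hy⟩
        exact ⟨x * y, by simpa [mul_assoc, Tn_add] using hx.mul hy⟩
      neg_mem' := by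
        rintro a ⟨x, hx⟩
        exact ⟨x⁻¹, by simpa [mul_assoc, Tn_neg] using hx.inv⟩ }
  obtain ⟨a, ha⟩ := Int.subgroup_cyclic H
  obtain ⟨c, hc⟩ : a ∈ H := ha ▸ AddSubgroup.subset_closure rfl
  have key : ∀ x, σ x • B • (∞ : P) = B • (∞ : P) → x ∈ Subgroup.zpowers c := by
    intro x hx
    obtain ⟨n, hn⟩ := hσ.par hx
    have hH : n ∈ H := ⟨x, hn⟩
    rw [ha] at hH
    obtain ⟨k, hk⟩ := AddSubgroup.mem_closure_singleton.1 hH
    refine ⟨k, hσ.eq (PM.trans ?_ hn.symm)⟩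
    have := hc.zpow k
    rwa [conj_zpow, Tn_zpow, ← map_zpow, ← smul_eq_mul k a, hk] at this
  refine ⟨c, ?_, fun x => ⟨key x, ?_⟩⟩
  · rintro rfl
    obtain ⟨x, n, hn, hx⟩ := hσ.exists_par B
    have := key x (by rw [hx, par_fix])
    exact ne_one_of_par hn.ne' (Or.inl hx) (by simpa using this)
  · rintro ⟨k, rfl⟩
    have := hc.zpow k
    simp only
    rw [map_zpow, this.smul, conj_zpow, Tn_zpow, par_fix]

theorem Lat.exists_fix (hσ : Lat σ) (p : P) : ∃ c : F, c ≠ 1 ∧ σ c • p = p := by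
  obtain ⟨c, h1, h2⟩ := hσ.stab p
  exact ⟨c, h1, (h2 c).2 (Subgroup.mem_zpowers c)⟩

/-- finitely many orbits of oriented Farey edges -/
theorem Lat.edges (hσ : Lat σ) : ∃ S : Finset GZ, ∀ p q, |D p q| = 1 →
    ∃ x, ∃ B ∈ S, p = σ x • B • (∞ : P) ∧ q = σ x • B • ((0 : ℚ) : P) := by
  obtain ⟨S, hS⟩ := hσ.fin
  refine ⟨S, fun p q h => ?_⟩
  obtain ⟨A, rfl, rfl⟩ := exists_edge h
  obtain ⟨x, B, hB, rfl⟩ := hS A
  exact ⟨x, B, hB, mul_smul _ _ _, mul_smul _ _ _⟩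

/-- `ψ` is equivariant along `φ` -/
def Eqv (σ : F →* GZ) (φ : F → F) (ψ : P → P) : Prop := ∀ x p, ψ (σ x • p) = σ (φ x) • ψ p

/-- Farey edges go to pairs of bounded determinant -/
theorem Lat.bd (hσ : Lat σ) {φ : F → F} {ψ : P → P} (h : Eqv σ φ ψ) :
    ∃ K, ∀ p q, |D p q| = 1 → |D (ψ p) (ψ q)| ≤ K := by
  obtain ⟨S, hS⟩ := hσ.edges
  obtain ⟨K, hK⟩ :=
    (S.image fun B => |D (ψ (B • (∞ : P))) (ψ (B • ((0 : ℚ) : P)))|).bddAbove
  refine ⟨K, fun p q e => ?_⟩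
  obtain ⟨x, B, hB, rfl, rfl⟩ := hS p q e
  rw [h, h, abs_D_smul]
  exact hK (Finset.mem_coe.2 (Finset.mem_image_of_mem _ hB))

theorem Lat.eqv_unique (hσ : Lat σ) (φ : F ≃* F) {ψ ψ' : P → P} (h : Eqv σ φ ψ)
    (h' : Eqv σ φ ψ') : ψ = ψ' := by
  funext p
  obtain ⟨c, h1, h2⟩ := hσ.exists_fix p
  exact hσ.fix1 (x := φ c) (by simpa using h1) (by rw [← h, h2]) (by rw [← h', h2])

/-- `φ` sends parabolic elements to parabolic elements -/
def Par (σ : F →* GZ) (φ : F → F) : Prop :=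
  ∀ x (p : P), σ x • p = p → ∃ q : P, σ (φ x) • q = q

theorem Lat.exists_eqv0 (hσ : Lat σ) (φ : F ≃* F) (h : Par σ φ) : ∃ ψ, Eqv σ φ ψ := by
  choose c h1 h2 using hσ.exists_fix
  choose ψ h3 using fun p => h (c p) p (h2 p)
  have key : ∀ x p, σ x • p = p → σ (φ x) • ψ p = ψ p := fun x p hx =>
    hσ.fix_of_comm (by simpa using h1 p) (h3 p) ((hσ.comm (h2 p) hx).map φ)
  refine ⟨ψ, fun x p => hσ.fix1 (x := φ (x * c p * x⁻¹)) (by simpa using h1 p) (key _ _ ?_) ?_⟩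
  · simp [mul_smul, h2]
  · simp [mul_smul, h3]

theorem Eqv.comp {φ φ' : F → F} {ψ ψ' : P → P} (h : Eqv σ φ ψ) (h' : Eqv σ φ' ψ') :
    Eqv σ (φ ∘ φ') (ψ ∘ ψ') := fun x p => by simp only [Function.comp, h' x, h (φ' x)]

theorem Eqv.symm (φ : F ≃* F) (ψ : P ≃ P) (h : Eqv σ φ ψ) : Eqv σ φ.symm ψ.symm := fun x p => by
  rw [Equiv.symm_apply_eq, h]; simp

/-- the map of cusps induced by an automorphism -/
theorem Lat.exists_eqv (hσ : Lat σ) (φ : F ≃* F) (h : Par σ φ) (h' : Par σ φ.symm) :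
    ∃ ψ : P ≃ P, Eqv σ φ ψ := by
  obtain ⟨ψ, e⟩ := hσ.exists_eqv0 φ h
  obtain ⟨ψ', e'⟩ := hσ.exists_eqv0 φ.symm h'
  have i0 : Eqv σ (MulEquiv.refl F) id := fun _ _ => rfl
  have i1 : ψ' ∘ ψ = id := hσ.eqv_unique (MulEquiv.refl F)
    (fun x p => by simpa using e'.comp e x p) i0
  have i2 : ψ ∘ ψ' = id := hσ.eqv_unique (MulEquiv.refl F)
    (fun x p => by simpa using e.comp e' x p) i0
  exact ⟨⟨ψ, ψ', congrFun i1, congrFun i2⟩, e⟩

/-- an equivariant bijection of the cusps preserves separation -/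
theorem Lat.sep_iff (hσ : Lat σ) (φ : F ≃* F) (ψ : P ≃ P) (h : Eqv σ φ ψ) (a b c e : P) :
    Sep (ψ a) (ψ b) (ψ c) (ψ e) ↔ Sep a b c e := by
  obtain ⟨K, hK⟩ := hσ.bd h
  obtain ⟨K', hK'⟩ := hσ.bd (Eqv.symm φ ψ h)
  exact ⟨sep_of_map ψ.injective hK, fun k => sep_of_map ψ.symm.injective hK' (by simpa using k)⟩

/-- the action on the cusps of a group acting on `F` by automorphisms keeping the parabolics -/
theorem Lat.exists_act (hσ : Lat σ) {G : Type} [Group G] (Φ : G →* MulAut F)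
    (h : ∀ g, Par σ (Φ g)) : ∃ Ψ : G →* Equiv.Perm P, (∀ g, Eqv σ (Φ g) (Ψ g)) ∧
      ∀ g y, (∀ x, Φ g x = y * x * y⁻¹) → ∀ p, Ψ g p = σ y • p := by
  have h' : ∀ g, Par σ (Φ g).symm := fun g => by
    have := h g⁻¹
    rwa [map_inv] at this
  choose ψ e using fun g => hσ.exists_eqv (Φ g) (h g) (h' g)
  refine ⟨MonoidHom.mk' ψ fun a b => Equiv.ext (congrFun (hσ.eqv_unique (Φ (a * b)) (e _) ?_)), e,
    fun g y hy => congrFun (hσ.eqv_unique (Φ g) (e g) fun x p => by simp [hy, mul_smul])⟩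
  intro x p
  simpa using (e a).comp (e b) x p

end Pool.Agent.Lib.THU.FA
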