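import Mathlib

/-!
Cusps, the action of `GL(2, ℤ)`, determinants of cusps, separation, Farey lattices.
-/

namespace Pool.Agent.Lib.THU.FA

open Matrix OnePoint

/-- the cusps -/
abbrev P : Type := OnePoint ℚ

/-- the extended modular group (with `-1`) -/
abbrev GZ : Type := GL (Fin 2) ℤ

/-- an integral matrix seen over the field `K` -/
abbrev cst (K : Type) [Field K] : GZ →* GL (Fin 2) K :=
  Matrix.GeneralLinearGroup.map (Int.castRingHom K)

/-- Moebius action on the cusps -/
instance actP : MulAction GZ P := MulAction.compHom P (cst ℚ)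

/-- numerator of a cusp -/
def nu (p : P) : ℤ := p.elim 1 Rat.num

/-- denominator of a cusp -/
def de (p : P) : ℤ := p.elim 0 (fun q => (q.den : ℤ))

/-- determinant of the primitive vectors of two cusps -/
def D (p q : P) : ℤ := nu p * de q - nu q * de p

/-- `c` and `e` lie on different sides of the pair `a, b` -/
def Sep (a b c e : P) : Prop := D a c * D c b * (D a e * D e b) < 0

/-- `σ` embeds `F` in `PGL(2, ℤ)` with finite index, and `F` has no element of order two -/
structure Lat {F : Type} [Group F] (σ : F →* GZ) : Prop where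
  inj : ∀ x, σ x = 1 ∨ σ x = -1 → x = 1
  fin : ∃ S : Finset GZ, ∀ A, ∃ x, ∃ B ∈ S, A = σ x * B
  tf : ∀ (x : F) (n : ℕ), 0 < n → x ^ n = 1 → x = 1

theorem smul_def (A : GZ) (p : P) : A • p = cst ℚ A • p := rfl

@[simp] theorem nu_inf : nu ∞ = 1 := rfl
@[simp] theorem de_inf : de ∞ = 0 := rfl
@[simp] theorem nu_coe (q : ℚ) : nu (q : P) = q.num := rfl
@[simp] theorem de_coe (q : ℚ) : de (q : P) = q.den := rfl

theorem cop (p : P) : IsCoprime (nu p) (de p) := by
  cases p using OnePoint.rec with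
  | infty => simpa using isCoprime_one_left
  | coe q => simpa using (Rat.isCoprime_num_den q)

theorem de_nonneg (p : P) : 0 ≤ de p := by
  cases p using OnePoint.rec <;> simp

/-- the cusp of an integer vector -/
def pt (a b : ℤ) : P := if b = 0 then ∞ else ((a : ℚ) / b : ℚ)

theorem pt_nu_de (p : P) : pt (nu p) (de p) = p := by
  cases p using OnePoint.rec with
  | infty => simp [pt]
  | coe q => simp [pt, Rat.num_div_den]

/-- the vector of the cusp of a primitive vector is that vector up to sign -/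
theorem vec_pt {a b : ℤ} (h : IsCoprime a b) :
    ∃ ε : ℤ, (ε = 1 ∨ ε = -1) ∧ nu (pt a b) = ε * a ∧ de (pt a b) = ε * b := by
  unfold pt
  split_ifs with hb
  · subst hb
    rcases Int.isUnit_iff.1 (isCoprime_zero_right.1 h) with rfl | rfl
    · exact ⟨1, by simp⟩
    · exact ⟨-1, by simp⟩
  · have hc : Nat.Coprime a.natAbs b.natAbs := Int.isCoprime_iff_nat_coprime.1 h
    rcases lt_or_gt_of_ne hb with hb | hb
    · refine ⟨-1, by simp, ?_⟩
      have e : ((a : ℚ) / b) = ((-a : ℤ) : ℚ) / ((-b : ℤ) : ℚ) := by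
        push_cast; rw [neg_div_neg_eq]
      have h2 : Nat.Coprime (-a).natAbs (-b).natAbs := by simpa using hc
      rw [nu_coe, de_coe, e, Rat.num_div_eq_of_coprime (by omega) h2,
        Rat.den_div_eq_of_coprime (by omega) h2]
      simp
    · refine ⟨1, by simp, ?_⟩
      rw [nu_coe, de_coe, Rat.num_div_eq_of_coprime hb hc, Rat.den_div_eq_of_coprime hb hc]
      simp

theorem smul_eq_pt (A : GZ) (p : P) :
    A • p = pt (A 0 0 * nu p + A 0 1 * de p) (A 1 0 * nu p + A 1 1 * de p) := by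
  rw [smul_def]
  cases p using OnePoint.rec with
  | infty => simp [smul_infty_eq_ite, pt]
  | coe q =>
    have hq : (q.den : ℚ) ≠ 0 := by exact_mod_cast q.den_nz
    have e : ∀ a b : ℤ, ((a * q.num + b * q.den : ℤ) : ℚ) = (a * q + b) * q.den := by
      intro a b
      have := Rat.mul_den_eq_num q
      push_cast
      rw [← this]; ring
    have e0 : (A 1 0 * q.num + A 1 1 * q.den = 0) ↔ ((A 1 0 : ℚ) * q + A 1 1 = 0) := by
      rw [← Int.cast_eq_zero (α := ℚ), e]; simp
    rw [smul_some_eq_ite, pt, nu_coe, de_coe, e, e, mul_div_mul_right _ _ hq]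
    simp only [e0]
    rfl

theorem det_eq (A : GZ) :
    A 0 0 * A 1 1 - A 0 1 * A 1 0 = 1 ∨ A 0 0 * A 1 1 - A 0 1 * A 1 0 = -1 := by
  have := Int.isUnit_iff.1 (Matrix.isUnits_det_units A)
  rwa [det_fin_two] at this

theorem cop_smul (A : GZ) {a b : ℤ} (h : IsCoprime a b) :
    IsCoprime (A 0 0 * a + A 0 1 * b) (A 1 0 * a + A 1 1 * b) := by
  obtain ⟨u, v, huv⟩ := h
  rcases det_eq A with e | e
  · exact ⟨u * A 1 1 - v * A 1 0, v * A 0 0 - u * A 0 1, by linear_combination huv + (u * a + v * b) * e⟩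
  · exact ⟨v * A 1 0 - u * A 1 1, u * A 0 1 - v * A 0 0, by linear_combination huv - (u * a + v * b) * e⟩

/-- the vector of `A • p` is `A` applied to the vector of `p`, up to sign -/
theorem vec_smul (A : GZ) (p : P) : ∃ ε : ℤ, (ε = 1 ∨ ε = -1) ∧
    nu (A • p) = ε * (A 0 0 * nu p + A 0 1 * de p) ∧
    de (A • p) = ε * (A 1 0 * nu p + A 1 1 * de p) := by
  rw [smul_eq_pt]; exact vec_pt (cop_smul A (cop p))

theorem D_self (p : P) : D p p = 0 := by simp [D]

theorem D_swap (p q : P) : D q p = - D p q := by simp [D]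

theorem D_eq_zero {p q : P} : D p q = 0 ↔ p = q := by
  refine ⟨fun h => ?_, fun h => h ▸ D_self p⟩
  cases p using OnePoint.rec with
  | infty =>
    cases q using OnePoint.rec with
    | infty => rfl
    | coe q => simp [D] at h
  | coe p =>
    cases q using OnePoint.rec with
    | infty => simp [D] at h
    | coe q =>
      simp only [D, nu_coe, de_coe] at h
      rw [coe_eq_coe, Rat.eq_iff_mul_eq_mul]
      linarith

theorem D_ne {p q : P} (h : p ≠ q) : D p q ≠ 0 := fun e => h (D_eq_zero.1 e)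

theorem D_smul (A : GZ) : ∃ (δ : ℤ) (ε : P → ℤ), (δ = 1 ∨ δ = -1) ∧ (∀ p, ε p = 1 ∨ ε p = -1) ∧
    ∀ p q, D (A • p) (A • q) = δ * ε p * ε q * D p q := by
  choose ε h using vec_smul A
  refine ⟨_, ε, det_eq A, fun p => (h p).1, fun p q => ?_⟩
  simp only [D, (h p).2.1, (h p).2.2, (h q).2.1, (h q).2.2]
  ring

theorem abs_D_smul (A : GZ) (p q : P) : |D (A • p) (A • q)| = |D p q| := by
  obtain ⟨δ, ε, h1, h2, h3⟩ := D_smul A
  rw [h3]
  rcases h1 with rfl | rfl <;> rcases h2 p with e | e <;> rcases h2 q with e' | e' <;>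
    simp [e, e']

theorem sep_smul (A : GZ) (a b c e : P) : Sep (A • a) (A • b) (A • c) (A • e) ↔ Sep a b c e := by
  obtain ⟨δ, ε, h1, h2, h3⟩ := D_smul A
  have s1 : δ * δ = 1 := by rcases h1 with rfl | rfl <;> simp
  have s2 : ∀ p, ε p * ε p = 1 := fun p => by rcases h2 p with e | e <;> simp [e]
  unfold Sep
  simp only [h3]
  have : δ * ε a * ε c * D a c * (δ * ε c * ε b * D c b) *
      (δ * ε a * ε e * D a e * (δ * ε e * ε b * D e b)) =
      (δ * δ) * (δ * δ) * (ε a * ε a) * (ε b * ε b) * (ε c * ε c) * (ε e * ε e) *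
        (D a c * D c b * (D a e * D e b)) := by ring
  rw [this]; simp [s1, s2]

/-- Pluecker identity -/
theorem pluecker (a b c e : P) : D a b * D c e = D a c * D b e - D a e * D b c := by
  simp only [D]; ring

theorem neg_smul' (A : GZ) (p : P) : (-A) • p = A • p := by
  rw [smul_eq_pt, smul_eq_pt]
  simp only [pt, Units.val_neg, Matrix.neg_apply]
  have e : ∀ a b c d : ℤ, -a * c + -b * d = -(a * c + b * d) := by intros; ring
  simp only [e, neg_eq_zero, Int.cast_neg, neg_div_neg_eq]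

/-- the matrix with columns `(a, c)` and `(b, d)` -/
noncomputable def mk (a b c d : ℤ) (h : a * d - b * c = 1 ∨ a * d - b * c = -1) : GZ :=
  Matrix.GeneralLinearGroup.mk'' !![a, b; c, d] (by rw [det_fin_two_of]; exact Int.isUnit_iff.2 h)

@[simp] theorem mk00 {a b c d h} : (mk a b c d h : GZ) 0 0 = a := rfl
@[simp] theorem mk01 {a b c d h} : (mk a b c d h : GZ) 0 1 = b := rfl
@[simp] theorem mk10 {a b c d h} : (mk a b c d h : GZ) 1 0 = c := rfl
@[simp] theorem mk11 {a b c d h} : (mk a b c d h : GZ) 1 1 = d := rfl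

theorem smul_inf (A : GZ) : A • (∞ : P) = pt (A 0 0) (A 1 0) := by simp [smul_eq_pt]

theorem smul_zero' (A : GZ) : A • ((0 : ℚ) : P) = pt (A 0 1) (A 1 1) := by simp [smul_eq_pt]

/-- oriented Farey edges are the translates of `(∞, 0)` -/
theorem exists_edge {p q : P} (h : |D p q| = 1) :
    ∃ A : GZ, A • (∞ : P) = p ∧ A • ((0 : ℚ) : P) = q := by
  refine ⟨mk (nu p) (nu q) (de p) (de q) ?_, ?_, ?_⟩
  · exact (abs_eq zero_le_one).1 h
  · simp [smul_inf, pt_nu_de]
  · simp [smul_zero', pt_nu_de]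

theorem exists_inf (p : P) : ∃ A : GZ, A • (∞ : P) = p := by
  obtain ⟨u, v, h⟩ := cop p
  exact ⟨mk (nu p) (-v) (de p) u (Or.inl (by linarith)), by simp [smul_inf, pt_nu_de]⟩

theorem smul_inf_iff (A : GZ) : A • (∞ : P) = ∞ ↔ A 1 0 = 0 := by
  rw [smul_def, smul_infty_eq_self_iff]; simp

end Pool.Agent.Lib.THU.FA
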