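import Pool.Agent.Lib.THU.FA.RibPoly

/-!
Boundary words of a surface give a lattice in the extended modular group whose cusps are the
boundary words.
-/

namespace Pool.Agent.Lib.THU.FA

open Relation Pool.Agent.Lib.FBC Pool.Agent.Lib.FBC.RIB

namespace Rib

lemma count_eq {α : Type} [DecidableEq α] (l : List α) (a : α) :
    l.count a = ∑ i : Fin l.length, if l[i] = a then 1 else 0 := by
  induction l with
  | nil => simp
  | cons x l ih =>
    rw [List.count_cons, ih, add_comm]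
    exact ((Fin.sum_univ_succ fun i : Fin (l.length + 1) =>
      if (x :: l)[i] = a then 1 else 0).trans (by simp)).symm

variable {m b : ℕ} (c : Fin b → List (Fin m × Bool))

/-- positions in the words -/
abbrev Pos : Type := Σ j : Fin b, Fin (c j).length

/-- the letter at a position -/
def lt (ω : Pos c) : Fin m × Bool := (c ω.1)[ω.2]

/-- the next position -/
def nx : Equiv.Perm (Pos c) := Equiv.sigmaCongrRight fun _ => finRotate _

lemma nx_eq (j : Fin b) (k : ℕ) (h : k < (c j).length) :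
    nx c ⟨j, k, h⟩ = ⟨j, (k + 1) % (c j).length, Nat.mod_lt _ (by omega)⟩ := by
  refine congrArg (Sigma.mk j) (Fin.ext (?_ : (finRotate _ (⟨k, h⟩ : Fin _) : ℕ) = _))
  simp [finRotate_apply, Fin.val_add]

lemma two (h : SurfW c) (i : Fin m) : ∃ a a', a ≠ a' ∧ ∀ ω, (lt c ω).1 = i ↔ ω = a ∨ ω = a' := by
  have : (Finset.univ.filter fun ω : Pos c => (lt c ω).1 = i).card = 2 := by
    rw [← h.2.1 i, Finset.card_filter, Fintype.sum_sigma]
    refine Finset.sum_congr rfl fun j _ => ?_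
    rw [count_eq]
    exact Fintype.sum_equiv (finCongr (List.length_map _).symm) _ _ fun k => by simp [lt]
  obtain ⟨a, a', h1, h2⟩ := Finset.card_eq_two.1 this
  exact ⟨a, a', h1, fun ω => by simpa using Finset.ext_iff.1 h2 ω⟩

lemma other (h : SurfW c) (ω : Pos c) :
    ∃ a, a ≠ ω ∧ ∀ ω', (lt c ω').1 = (lt c ω).1 ↔ ω' = ω ∨ ω' = a := by
  obtain ⟨a, a', h1, h2⟩ := two c h (lt c ω).1
  rcases (h2 ω).1 rfl with e | e
  · exact ⟨a', e ▸ h1.symm, fun ω' => (h2 ω').trans (by rw [← e])⟩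
  · exact ⟨a, e ▸ h1, fun ω' => (h2 ω').trans (by rw [← e, or_comm])⟩

/-- the sides of the flags -/
def side (x : Pos c × Bool) : Fin m × Bool := ((lt c x.1).1, x.2 == (lt c x.1).2)

lemma side_true (ω : Pos c) : side c (ω, true) = lt c ω := by simp [side]
lemma side_false (ω : Pos c) : side c (ω, false) = linv (lt c ω) := by simp [side, linv]

lemma exists_vertices (hm : 2 ≤ m) (h : SurfW c) :
    ∃ (s : FreeGroup (Fin m) →* GZ) (w : Pos c → P), Lat s ∧
      (∀ ω, s (FreeGroup.mk [lt c ω]) • w (nx c ω) = w ω) ∧ ∀ p, ∃ g ω, p = s g • w ω := by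
  choose ot ot1 ot2 using other c h
  have l1 : ∀ ω, (lt c (ot ω)).1 = (lt c ω).1 := fun ω => (ot2 ω _).2 (Or.inr rfl)
  have oo : ∀ ω, ot (ot ω) = ω := fun ω =>
    (((ot2 (ot ω) ω).1 (l1 ω).symm).resolve_left (ot1 ω).symm).symm
  let r : Equiv.Perm (Pos c × Bool) :=
    Function.Involutive.toPerm (fun x => (x.1, !x.2)) fun x => by simp
  let n : Equiv.Perm (Pos c × Bool) :=
    Function.Involutive.toPerm (fun x => (cond x.2 ((nx c).symm x.1) (nx c x.1), !x.2)) (by
      rintro ⟨ω, _ | _⟩ <;> simp)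
  let o : Equiv.Perm (Pos c × Bool) :=
    Function.Involutive.toPerm (fun x => (ot x.1, (x.2 == (lt c x.1).2) == (lt c (ot x.1)).2)) (by
      rintro ⟨ω, t⟩
      simp only [oo]
      cases t <;> cases (lt c ω).2 <;> cases (lt c (ot ω)).2 <;> rfl)
  have so : ∀ x, side c (o x) = side c x := fun ⟨ω, t⟩ => Prod.ext (l1 ω) (by
    change (((t == (lt c ω).2) == (lt c (ot ω)).2) == (lt c (ot ω)).2) = (t == (lt c ω).2)
    cases t <;> cases (lt c ω).2 <;> cases (lt c (ot ω)).2 <;> rfl)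
  have inj : ∀ x y, side c x = side c y → x.1 = y.1 → y = x := by
    rintro ⟨ω, t⟩ ⟨_, t'⟩ e rfl
    have := congrArg Prod.snd e
    simp only [side] at this
    revert this
    cases t <;> cases t' <;> cases (lt c ω).2 <;> simp
  have su : ∀ x y, side c x = side c y → y = x ∨ y = o x := fun x y e =>
    ((ot2 x.1 y.1).1 (congrArg Prod.fst e).symm).imp (fun t => inj x y e t.symm)
      fun t => inj (o x) y ((so x).trans e) t.symm
  have ss : Function.Surjective (side c) := fun z => by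
    obtain ⟨a, a', -, h2⟩ := two c h z.1
    refine ⟨(a, z.2 == (lt c a).2), Prod.ext ((h2 a).2 (Or.inl rfl)) ?_⟩
    change ((z.2 == (lt c a).2) == (lt c a).2) = z.2
    cases z.2 <;> cases (lt c a).2 <;> rfl
  have A : ∀ x y, side c x = side c y → EqvGen (fun a b => b = o a ∨ b = n a) x y := fun x y e => by
    rcases su x y e with rfl | rfl
    · exact .refl _
    · exact .rel _ _ (Or.inl rfl)
  have B : ∀ u v, EqvGen (Wh c) u v → ∀ x y, side c x = linv u → side c y = linv v →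
      EqvGen (fun a b => b = o a ∨ b = n a) x y := fun u v e => by
    induction e with
    | rel u v e =>
      obtain ⟨j, k, hk, rfl, e⟩ := e
      intro x y hx hy
      refine .trans _ (⟨j, k, hk⟩, false) _ (A _ _ (by rw [side_false]; exact hx))
        (.trans _ (nx c ⟨j, k, hk⟩, true) _ (.rel _ _ (Or.inr rfl)) (A _ _ ?_))
      rw [side_true, nx_eq, hy]
      exact e
    | refl => exact fun x y hx hy => A x y (hx.trans hy.symm)
    | symm _ _ _ ih => exact fun x y hx hy => .symm _ _ (ih y x hy hx)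
    | trans _ v _ _ _ i1 i2 =>
      obtain ⟨z, hz⟩ := ss (linv v)
      exact fun x y hx hy => .trans _ z _ (i1 x z hx hz) (i2 z y hz hy)
  obtain ⟨s, v, L, v1, v2, v3⟩ := poly hm r n o (side c) r.left_inv (Equiv.ext n.left_inv)
    (Equiv.ext o.left_inv)
    (fun ⟨ω, t⟩ => Prod.ext rfl (by
      change (!((t == (lt c ω).2) == (lt c (ot ω)).2)) = (((!t) == (lt c ω).2) == (lt c (ot ω)).2)
      cases t <;> cases (lt c ω).2 <;> cases (lt c (ot ω)).2 <;> rfl))
    (fun x e => Bool.not_ne_self x.2 (congrArg Prod.snd e))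
    (fun x e => ot1 x.1 (congrArg Prod.fst e)) so
    (fun ⟨ω, t⟩ => Prod.ext rfl (by
      change ((!t) == (lt c ω).2) = !(t == (lt c ω).2)
      cases t <;> cases (lt c ω).2 <;> rfl)) su ss
    fun x y => B _ _ (h.2.2 (linv (side c x)) (linv (side c y))) x y (linv_linv _).symm
      (linv_linv _).symm
  refine ⟨s, fun ω => v (ω, true), L, fun ω => ?_, fun p => ?_⟩
  · rw [← side_true]
    exact (congrArg _ (v1 (ω, false))).trans (v2 (ω, true))
  · obtain ⟨g, ⟨ω, _ | _⟩, e⟩ := v3 p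
    · exact ⟨g, nx c ω, e.trans (congrArg _ (v1 (ω, false)).symm)⟩
    · exact ⟨g, ω, e⟩

end Rib

open Rib in
theorem stFA1 (m b : ℕ) (c : Fin b → List (Fin m × Bool)) (hm : 2 ≤ m) (h : SurfW c) :
    ∃ s : FreeGroup (Fin m) →* GZ, Lat s ∧ (∀ j, ∃ p : P, s (FreeGroup.mk (c j)) • p = p) ∧
      ∀ p : P, ∃ j w, s (w * FreeGroup.mk (c j) * w⁻¹) • p = p := by
  obtain ⟨s, w, L, w1, w2⟩ := exists_vertices c hm h
  have pos : ∀ j, 0 < (c j).length := fun j => List.length_pos_iff.2 (h.1 j)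
  have key : ∀ j k, k ≤ (c j).length → s (FreeGroup.mk ((c j).take k)) •
      w ⟨j, k % (c j).length, Nat.mod_lt _ (pos j)⟩ = w ⟨j, 0, pos j⟩ := fun j k hk => by
    induction k with
    | zero => exact (congrArg (· • _) (map_one s)).trans (one_smul _ _)
    | succ k ih =>
      rw [List.take_succ_eq_append_getElem hk, ← FreeGroup.mul_mk, map_mul, mul_smul, ← nx_eq c j k hk]
      exact (congrArg _ (w1 ⟨j, k, hk⟩)).trans (by
        simpa only [Nat.mod_eq_of_lt (show k < _ from hk)] using ih (by omega))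
  have fix : ∀ j, s (FreeGroup.mk (c j)) • w ⟨j, 0, pos j⟩ = w ⟨j, 0, pos j⟩ := fun j => by
    simpa using key j _ le_rfl
  refine ⟨s, L, fun j => ⟨_, fix j⟩, fun p => ?_⟩
  obtain ⟨g, ⟨j, k, hk⟩, rfl⟩ := w2 p
  have e := key j k hk.le
  simp only [Nat.mod_eq_of_lt hk] at e
  refine ⟨j, g * (FreeGroup.mk ((c j).take k))⁻¹, ?_⟩
  rw [← inv_smul_eq_iff.2 e.symm]
  simp only [map_mul, map_inv, mul_inv_rev, inv_inv, mul_smul, inv_smul_smul, smul_inv_smul, fix]

end Pool.Agent.Lib.THU.FA
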