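import Pool.Agent.Lib.THU.FA.BA
import Pool.Agent.Lib.THU.FA.Rib
import Pool.Agent.Lib.THU.NB.FAR

/-!
The model of the fibred group acting on the cusps.
-/

namespace Pool.Agent.Lib.THU.FA

open OnePoint Pool.Agent.Lib.THU Pool.Agent.Lib.FBC Pool.Agent.Lib.FBC.RIB

/-- orientation of a triple of cusps -/
def ori (a b c : P) : ℤ := (D a b * D b c * D c a).sign

theorem ori_smul (A : GZ) (a b c : P) :
    ori (A • a) (A • b) (A • c) = (A : Matrix (Fin 2) (Fin 2) ℤ).det * ori a b c := by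
  choose ε h using vec_smul A
  have e : ∀ p q, D (A • p) (A • q) =
      (A 0 0 * A 1 1 - A 0 1 * A 1 0) * ε p * ε q * D p q := fun p q => by
    simp only [D, (h p).2.1, (h p).2.2, (h q).2.1, (h q).2.2]
    ring
  rw [ori, ori, e, e, e, Matrix.det_fin_two]
  rcases det_eq A with d | d <;> rcases (h a).1 with ha | ha <;> rcases (h b).1 with hb | hb <;>
    rcases (h c).1 with hc | hc <;> simp [d, ha, hb, hc]

theorem sign_D (p q : ℚ) : (D p q).sign = if p < q then -1 else if p = q then 0 else 1 := by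
  have e := D_coe p q
  have k : (0 : ℚ) < p.den * q.den := by have := p.pos; have := q.pos; positivity
  split_ifs with h1 h2
  · rw [Int.sign_eq_neg_one_iff_neg, ← Int.cast_lt (R := ℚ), e]
    exact_mod_cast mul_neg_of_pos_of_neg k (sub_neg.2 h1)
  · simp [h2, D_self]
  · rw [Int.sign_eq_one_iff_pos, ← Int.cast_lt (R := ℚ), e]
    exact_mod_cast mul_pos k (sub_pos.2 (lt_of_le_of_ne (not_lt.1 h1) (Ne.symm h2)))

theorem sign_D_map (g : ℚ ≃o ℚ) (a b : P) : (D (a.map g) (b.map g)).sign = (D a b).sign := by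
  have k : ∀ q : ℚ, (D ∞ q).sign = 1 := fun q => by
    rw [D_inf, Int.sign_eq_one_iff_pos]; exact_mod_cast q.pos
  cases a using OnePoint.rec <;> cases b using OnePoint.rec
  · rfl
  · exact (k _).trans (k _).symm
  · rw [D_swap, D_swap ∞, Int.sign_neg, Int.sign_neg]
    exact congrArg _ ((k _).trans (k _).symm)
  · exact (sign_D _ _).trans (by rw [sign_D]; simp)

theorem ori_map (g : ℚ ≃o ℚ) (a b c : P) : ori (a.map g) (b.map g) (c.map g) = ori a b c := by
  simp only [ori, Int.sign_mul, sign_D_map]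

theorem emb_smul (A : GZ) (p : P) : AN.emb (A • p) = cst ℂ A • AN.emb p := by
  have := OnePoint.map_smul (Rat.castHom ℂ) (cst ℚ A) p
  refine this.trans ?_
  congr 1

/-- the model from a lattice action -/
theorem mod_of {G : Type} [Group G] [MulAction G P] (C : NB.Cusp G P) (s : C.d.ker →* GZ)
    (hs : Lat s) (hact : ∀ (x : C.d.ker) (p : P), (x : G) • p = s x • p) :
    Nonempty (AN.Mod C) := by
  have key := fun g : G => hs.exists_qs0 (MulAut.conjNormal g) (MulAction.toPerm g) fun x p => by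
    simp [← hact, mul_smul]
  refine ⟨⟨s, hs, hact, fun g x y hy => ?_, fun g => ?_⟩⟩
  · obtain ⟨A, h, -, -, -, -, -, e⟩ := key g
    have e1 : ∀ a b c : P, ori (g • a) (g • b) (g • c) =
        (A : Matrix (Fin 2) (Fin 2) ℤ).det * ori a b c := fun a b c => by
      rw [← ori_map h a b c, ← ori_smul, ← e, ← e, ← e]; rfl
    have e2 : ∀ p : P, s y • g • p = g • s x • p := fun p => by simp [← hact, hy, mul_smul]
    have e3 := ori_smul (s y) (g • ∞) (g • ((0 : ℚ) : P)) (g • ((1 : ℚ) : P))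
    rw [e2, e2, e2, e1, e1, ori_smul, show ori ∞ ((0 : ℚ) : P) ((1 : ℚ) : P) = 1 by
      simp [ori, D], mul_one, mul_one, mul_comm] at e3
    exact (mul_right_cancel₀ (Matrix.isUnits_det_units A).ne_zero e3).symm
  · obtain ⟨A, h, H, M, h1, h2, h3, e⟩ := key g
    obtain ⟨E, K, k1, k2, k3⟩ := stBA H M h1 h2
    refine ⟨A, E, K, k2, k3, fun p => ?_⟩
    rw [show g • p = _ from e p, emb_smul]
    congr 1
    cases p using OnePoint.rec with
    | infty => rfl
    | coe q =>
      refine congrArg OnePoint.some (?_ : ((h q : ℚ) : ℂ) = E (q : ℂ))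
      have := k1 q
      rw [h3] at this
      simpa using this.symm

open Rib in
/-- boundary words are nontrivial -/
theorem word_ne {m b : ℕ} {c : Fin b → List (Fin m × Bool)} (h : SurfW c) (j : Fin b) :
    FreeGroup.mk (c j) ≠ 1 := by
  have wh : ∀ x y, Wh c x y → ∃ ω, lt c ω = x ∧ lt c (nx c ω) = linv y := by
    rintro x y ⟨j, k, hk, e1, e2⟩
    exact ⟨⟨j, k, hk⟩, e1, by rw [nx_eq]; exact e2⟩
  have noloop : ∀ ω, lt c (nx c ω) ≠ linv (lt c ω) := fun ω e => by
    obtain ⟨a, -, ha⟩ := other c h ω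
    have ne : nx c ω ≠ ω := fun t => linv_ne _ (by rw [← e, t])
    have a1 : nx c ω = a := ((ha _).1 (by rw [e]; rfl)).resolve_left ne
    subst a1
    have i1 : ∀ ω', lt c ω' = lt c ω → ω' = ω := fun ω' t =>
      ((ha ω').1 (by rw [t])).resolve_right fun u => linv_ne _ (by rw [← e, ← u, t])
    have i2 : ∀ ω', lt c ω' = linv (lt c ω) → ω' = nx c ω := fun ω' t =>
      ((ha ω').1 (by rw [t]; rfl)).resolve_left fun u => linv_ne _ (by rw [← t, u])
    have iso : ∀ x y, Relation.EqvGen (Wh c) x y → (x = lt c ω ↔ y = lt c ω) := fun x y t => by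
      induction t with
      | rel x y t =>
        obtain ⟨ω', rfl, t2⟩ := wh x y t
        constructor
        · intro u
          rw [i1 _ u, e] at t2
          rw [← linv_linv y, ← t2, linv_linv]
        · rintro rfl
          rw [(nx c).injective (i2 _ t2)]
      | refl => rfl
      | symm _ _ _ ih => exact ih.symm
      | trans _ _ _ _ _ i j => exact i.trans j
    exact linv_ne _ ((iso _ _ (h.2.2 _ (linv (lt c ω)))).1 rfl)
  have red : FreeGroup.IsReduced (c j) := List.isChain_iff_getElem.2 fun k hk e => by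
    by_contra t
    refine noloop ⟨j, k, by omega⟩ ?_
    rw [nx_eq]
    simp only [lt, Fin.getElem_fin, Nat.mod_eq_of_lt hk]
    refine Prod.ext e.symm ?_
    revert t
    simp only [linv]
    cases ((c j)[k]).2 <;> cases ((c j)[k + 1]).2 <;> simp
  intro e
  rw [← FreeGroup.toWord_eq_nil_iff, FreeGroup.toWord_mk, red.reduce_eq] at e
  exact h.1 j e

/-- a fibre of rank at most one has periodic monodromy -/
theorem per_of_small {G : Type} [Group G] (d : Dg G) (hd : Function.Surjective d) {m : ℕ}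
    (β : FreeGroupBasis (Fin m) d.ker) (hm : m < 2) : Per d := by
  obtain ⟨t, ht⟩ := hd (Multiplicative.ofAdd 1)
  obtain ⟨x0, hx⟩ : ∃ x0 : FreeGroup (Fin m), ∀ x, x ∈ Subgroup.zpowers x0 := by
    rcases Nat.eq_zero_or_pos m with rfl | h0
    · exact ⟨1, fun x => by rw [Subsingleton.elim x 1]; exact one_mem _⟩
    · refine ⟨FreeGroup.of ⟨0, h0⟩, fun x => ?_⟩
      induction x using FreeGroup.induction_on with
      | C1 => exact one_mem _
      | of i => rw [show i = ⟨0, h0⟩ from Fin.ext (by omega)]; exact Subgroup.mem_zpowers _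
      | inv_of _ h => exact inv_mem h
      | mul _ _ h k => exact mul_mem h k
  let φ : FreeGroup (Fin m) ≃* FreeGroup (Fin m) :=
    β.repr.symm.trans ((MulAut.conjNormal t).trans β.repr)
  have key : φ (φ x0) = x0 := by
    obtain ⟨k, hk⟩ := hx (φ x0)
    obtain ⟨l, hl⟩ := hx (φ.symm x0)
    simp only at hk hl
    by_cases h1 : x0 = 1
    · simp [h1]
    have e : x0 ^ (k * l) = x0 ^ (1 : ℤ) := by
      rw [zpow_mul, hk, ← map_zpow, hl]; simp
    have kl : k * l = 1 :=
      injective_zpow_iff_not_isOfFinOrder.2 (not_isOfFinOrder_of_isMulTorsionFree h1) e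
    rw [← hk, map_zpow, ← hk, ← zpow_mul]
    rcases Int.eq_one_or_neg_one_of_mul_eq_one kl with rfl | rfl <;> simp
  refine ⟨t * t, by simp [dg, ht], fun x h => ?_⟩
  obtain ⟨k, hk⟩ := hx (β.repr ⟨x, h⟩)
  have : φ (φ (β.repr ⟨x, h⟩)) = β.repr ⟨x, h⟩ := by
    rw [← hk]; simp only [map_zpow, key]
  simp only [φ, MulEquiv.trans_apply, MulEquiv.symm_apply_apply, EmbeddingLike.apply_eq_iff_eq]
    at this
  have := congrArg Subtype.val this
  simp only [MulAut.conjNormal_apply] at this
  rw [← mul_inv_eq_iff_eq_mul]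
  exact Eq.trans (by group) this

/-- the model of a fibred group with surface monodromy that is not periodic -/
theorem model (G : Type) [Group G] (d : Dg G) (hd : Function.Surjective d) (hP : ¬ Per d)
    (hS : Surf d) : ∃ (_ : MulAction G P) (C : NB.Cusp G P), C.d = d ∧ Nonempty (AN.Mod C) ∧
      ∀ a b, C.E a b ↔ |D a b| = 1 := by
  obtain ⟨m, b, β, c, u, hc, hu, hperm, hper⟩ := hS
  obtain ⟨s0, L0, f1, f2⟩ := stFA1 m b c (not_lt.1 fun h => hP (per_of_small d hd β h)) hc
  obtain ⟨s, L, U2, U3⟩ : ∃ s : d.ker →* GZ, Lat s ∧ (∀ j, ∃ p : P, s (spell β (c j)) • p = p) ∧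
      ∀ p : P, ∃ j w, s (w * spell β (c j) * w⁻¹) • p = p := by
    refine ⟨s0.comp β.repr.toMonoidHom, ⟨fun x h => by simpa using L0.inj _ h, ?_,
      fun x n hn h => ?_⟩, fun j => by simpa [spell] using f1 j, fun p => ?_⟩
    · obtain ⟨S, hS⟩ := L0.fin
      refine ⟨S, fun A => ?_⟩
      obtain ⟨x, h⟩ := hS A
      exact ⟨β.repr.symm x, by simpa using h⟩
    · simpa using L0.tf (β.repr x) n hn (by rw [← map_pow, h, map_one])
    · obtain ⟨j, w, h⟩ := f2 p
      exact ⟨j, β.repr.symm w, by simpa [spell] using h⟩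
  have U1 : ∀ j, spell β (c j) ≠ 1 := fun j => by simpa [spell] using word_ne hc j
  have U4 : ∀ j (w : d.ker) (n : ℤ), ∃ p : P, s (w * spell β (c j) ^ n * w⁻¹) • p = p :=
    fun j w n => by
      obtain ⟨p, h⟩ := U2 j
      refine ⟨s w • p, ?_⟩
      have : s (spell β (c j)) ^ n • p = p :=
        (MulAction.stabilizer GZ p).zpow_mem (MulAction.mem_stabilizer_iff.2 h) n
      simp [mul_smul, this]
  have par : ∀ g : G, Par s (MulAut.conjNormal g) := fun g x p hx => by
    obtain ⟨j, w, hw⟩ := U3 p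
    obtain ⟨q, hq⟩ : ∃ q : P, s (MulAut.conjNormal g (w * spell β (c j) * w⁻¹)) • q = q := by
      obtain ⟨i, v, hv, e⟩ := hperm g j
      rw [hu, hu] at e
      rcases e with e | e
      · convert U4 i (MulAut.conjNormal g w * ⟨v, hv⟩) 1 using 5
        rw [map_mul, map_mul, show MulAut.conjNormal g (spell β (c j)) =
          ⟨v, hv⟩ * spell β (c i) * ⟨v, hv⟩⁻¹ from Subtype.ext (by simpa using e)]
        simp [mul_assoc]
      · convert U4 i (MulAut.conjNormal g w * ⟨v, hv⟩) (-1) using 5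
        rw [map_mul, map_mul, show MulAut.conjNormal g (spell β (c j)) =
          ⟨v, hv⟩ * (spell β (c i))⁻¹ * ⟨v, hv⟩⁻¹ from Subtype.ext (by simpa using e)]
        simp [mul_assoc]
    exact ⟨q, L.fix_of_comm (by simpa using U1 j) hq ((L.comm hw hx).map _)⟩
  obtain ⟨Ψ, -, e2⟩ := L.exists_act MulAut.conjNormal par
  let _ : MulAction G P := MulAction.compHom P Ψ
  have hact : ∀ (x : d.ker) (p : P), (x : G) • p = s x • p := fun x p =>
    e2 x x (fun y => Subtype.ext (by simp)) p
  obtain ⟨t, ht⟩ := hd (Multiplicative.ofAdd 1)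
  obtain ⟨C, h1, -, h3⟩ := NB.exists_cusp G d m β t ht s L hact fun x hx g hg h => by
    by_cases h1 : x = 1
    · exact ⟨∞, by simp [h1]⟩
    obtain ⟨j, w, hw, n, e⟩ := hper x hx h1 g (fun k => hg k) h
    obtain ⟨p, hp⟩ := U4 j ⟨w, hw⟩ n
    exact ⟨p, by rw [← hact] at hp; simpa [e, hu] using hp⟩
  exact ⟨_, C, h1, by subst h1; exact mod_of C s L hact, h3⟩

end Pool.Agent.Lib.THU.FA
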