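import Pool.Agent.Lib.THU.FA.QS
import Pool.Agent.Lib.THU.AN.Defs

/-!
The Beurling-Ahlfors extension of a quasisymmetric homeomorphism of the real line.
-/

namespace Pool.Agent.Lib.THU.FA

open Complex Filter Topology Set

namespace BA

theorem det_eq (L : ℂ →L[ℝ] ℂ) : L.det = (L 1).re * (L I).im - (L I).re * (L 1).im := by
  rw [ContinuousLinearMap.det, ← LinearMap.det_toMatrix basisOneI, Matrix.det_fin_two]
  simp [LinearMap.toMatrix_apply]

theorem norm_sq_le (L : ℂ →L[ℝ] ℂ) :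
    ‖L‖ ^ 2 ≤ (L 1).re ^ 2 + (L 1).im ^ 2 + (L I).re ^ 2 + (L I).im ^ 2 := by
  rw [← Real.le_sqrt (norm_nonneg _) (by positivity)]
  refine L.opNorm_le_bound (Real.sqrt_nonneg _) fun v => ?_
  have e : L v = v.re • L 1 + v.im • L I := by
    rw [← map_smul, ← map_smul, ← map_add]; congr 1; simp
  rw [← Real.sqrt_sq (norm_nonneg v), ← Real.sqrt_mul (by positivity)]
  apply Real.le_sqrt_of_sq_le
  rw [e, Complex.sq_norm, Complex.sq_norm, normSq_apply, normSq_apply]
  simp only [add_re, add_im, real_smul, mul_re, mul_im, ofReal_re, ofReal_im, zero_mul, sub_zero,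
    add_zero]
  nlinarith [sq_nonneg (v.re * (L I).re - v.im * (L 1).re),
    sq_nonneg (v.re * (L I).im - v.im * (L 1).im)]

variable (H : ℝ ≃o ℝ)

/-- the mean of `H` between `x` and `x + y` -/
noncomputable def av (x y : ℝ) : ℝ := ∫ t in (0 : ℝ)..1, H (x + t * y)

/-- a primitive of `H` -/
noncomputable def pr (x : ℝ) : ℝ := ∫ t in (0 : ℝ)..x, H t

theorem pr_deriv (x : ℝ) : HasDerivAt (pr H) (H x) x :=
  (H.continuous.integral_hasStrictDerivAt 0 x).hasDerivAt

theorem pr_cd : ContDiff ℝ 1 (pr H) := by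
  rw [contDiff_one_iff_deriv, show deriv (pr H) = H from funext fun x => (pr_deriv H x).deriv]
  exact ⟨fun x => (pr_deriv H x).differentiableAt, H.continuous⟩

theorem av_eq (x : ℝ) {y : ℝ} (hy : y ≠ 0) : av H x y = (pr H (x + y) - pr H x) * y⁻¹ := by
  have hc := H.continuous
  have := intervalIntegral.integral_eq_sub_of_hasDerivAt (a := 0) (b := 1)
    (f := fun t => pr H (x + t * y) * y⁻¹) (f' := fun t => H (x + t * y)) (fun t _ => by
      have := ((pr_deriv H (x + t * y)).comp t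
        (((hasDerivAt_id' t).mul_const y).const_add x)).mul_const y⁻¹
      simpa [hy] using this) (Continuous.intervalIntegrable (by fun_prop) _ _)
  rw [av, this]; simp; ring

theorem av_zero (x : ℝ) : av H x 0 = H x := by simp [av]

theorem av_cont : Continuous fun p : ℝ × ℝ => av H p.1 p.2 := by
  have hc := H.continuous
  exact intervalIntegral.continuous_parametric_intervalIntegral_of_continuous'
    (f := fun (p : ℝ × ℝ) (t : ℝ) => H (p.1 + t * p.2)) (by unfold Function.uncurry; fun_prop) 0 1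

theorem av_lt {x y x' y' : ℝ} (h1 : x ≤ x') (h2 : x + y ≤ x' + y')
    (h3 : x < x' ∨ x + y < x' + y') : av H x y < av H x' y' := by
  have hc := H.continuous
  refine intervalIntegral.integral_lt_integral_of_continuousOn_of_le_of_exists_lt one_pos
    (by fun_prop) (by fun_prop) (fun t ht => H.monotone (by nlinarith [ht.1, ht.2])) ?_
  rcases h3 with h | h
  · exact ⟨0, by simp, by simpa using h⟩
  · exact ⟨1, by simp, by simpa using h⟩

theorem av_le {x y x' y' : ℝ} (h1 : x ≤ x') (h2 : x + y ≤ x' + y') : av H x y ≤ av H x' y' := by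
  by_cases h : x < x' ∨ x + y < x' + y'
  · exact (av_lt H h1 h2 h).le
  · push Not at h
    rw [show x = x' by linarith, show y = y' by linarith]

theorem av_half (x y : ℝ) : av H x y = (av H x (y / 2) + av H (x + y / 2) (y / 2)) / 2 := by
  rcases eq_or_ne y 0 with rfl | hy
  · simp
  · rw [av_eq H x hy, av_eq H x (half_ne_zero hy), av_eq H _ (half_ne_zero hy), add_assoc,
      add_halves]
    field_simp; ring
where half_ne_zero {y : ℝ} (h : y ≠ 0) : y / 2 ≠ 0 := div_ne_zero h two_ne_zero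

theorem av_pos (x : ℝ) {y : ℝ} (hy : 0 ≤ y) : H x ≤ av H x y ∧ av H x y ≤ H (x + y) := by
  rw [← av_zero, ← av_zero]
  exact ⟨av_le H le_rfl (by linarith), av_le H (by linarith) (by linarith)⟩

theorem av_neg (x : ℝ) {y : ℝ} (hy : y ≤ 0) : H (x + y) ≤ av H x y ∧ av H x y ≤ H x := by
  rw [← av_zero, ← av_zero]
  exact ⟨av_le H (by linarith) (by linarith), av_le H le_rfl (by linarith)⟩

variable {H}

theorem alg {M p q r s : ℝ} (hM : 1 ≤ M) (hp : 0 < p) (hq : 0 < q) (h1 : p ≤ M * q)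
    (h2 : q ≤ M * p) (r0 : r ≤ p) (s0 : s ≤ q) (r1 : p ≤ 2 * (M + 1) * r)
    (s1 : q ≤ 2 * (M + 1) * s) :
    0 < p * s + q * r ∧ p ^ 2 + q ^ 2 + r ^ 2 + s ^ 2 ≤ 4 * M * (M + 1) * (p * s + q * r) := by
  have hr : 0 < r := pos_of_mul_pos_left (b := 2 * (M + 1)) (by linarith) (by linarith)
  have hs : 0 < s := pos_of_mul_pos_left (b := 2 * (M + 1)) (by linarith) (by linarith)
  refine ⟨by positivity, ?_⟩
  have a1 : r ^ 2 ≤ p ^ 2 := by gcongr
  have a2 : s ^ 2 ≤ q ^ 2 := by gcongr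
  have a3 : p ^ 2 ≤ M * (p * q) := by nlinarith
  have a4 : q ^ 2 ≤ M * (p * q) := by nlinarith
  have a5 : p * q ≤ (M + 1) * (p * s + q * r) := by nlinarith
  have a6 := mul_le_mul_of_nonneg_left a5 (show 0 ≤ M by linarith)
  nlinarith

theorem est0 {M : ℝ} (hM : 1 ≤ M) (h : QS M H) (x : ℝ) {y : ℝ} (hy : 0 < y) {p q r s : ℝ}
    (hp : p = H (x + y) - H x) (hq : q = H x - H (x + -y)) (hr : r = H (x + y) - av H x y)
    (hs : s = av H x (-y) - H (x + -y)) :
    0 < p * s + q * r ∧ p ^ 2 + q ^ 2 + r ^ 2 + s ^ 2 ≤ 4 * M * (M + 1) * (p * s + q * r) := by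
  have k0 := h x y hy.le
  have k1 := (h (x + y / 2) (y / 2) (by linarith)).2
  have k2 := (h (x + -y / 2) (y / 2) (by linarith)).1
  rw [show x + y / 2 - y / 2 = x by ring, show x + y / 2 + y / 2 = x + y by ring] at k1
  rw [show x + -y / 2 - y / 2 = x + -y by ring, show x + -y / 2 + y / 2 = x by ring] at k2
  rw [sub_eq_add_neg x y] at k0
  have a1 := (av_pos H x hy.le).1
  have a2 := (av_neg H x (y := -y) (by linarith)).2
  have b1 := av_half H x y
  have b2 := av_half H x (-y)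
  have c1 := (av_pos H x (y := y / 2) (by linarith)).2
  have c2 := (av_pos H (x + y / 2) (y := y / 2) (by linarith)).2
  have c3 := (av_neg H x (y := -y / 2) (by linarith)).1
  have c4 := (av_neg H (x + -y / 2) (y := -y / 2) (by linarith)).1
  rw [show x + y / 2 + y / 2 = x + y by ring] at c2
  rw [show x + -y / 2 + -y / 2 = x + -y by ring] at c4
  have d1 : H (x + y) - H (x + y / 2) ≤ 2 * r := by linarith
  have d2 : H (x + -y / 2) - H (x + -y) ≤ 2 * s := by linarith
  refine alg hM (hp ▸ sub_pos.2 (H.strictMono (by linarith)))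
    (hq ▸ sub_pos.2 (H.strictMono (by linarith))) (by rw [hp, hq]; exact k0.1)
    (by rw [hp, hq]; exact k0.2) (by linarith) (by linarith) ?_ ?_ <;> nlinarith

theorem est {M : ℝ} (hM : 1 ≤ M) (h : QS M H) (x : ℝ) {y : ℝ} (hy : y ≠ 0) {p q r s : ℝ}
    (hp : p = H (x + y) - H x) (hq : q = H x - H (x + -y)) (hr : r = H (x + y) - av H x y)
    (hs : s = av H x (-y) - H (x + -y)) :
    0 < p * s + q * r ∧ p ^ 2 + q ^ 2 + r ^ 2 + s ^ 2 ≤ 4 * M * (M + 1) * (p * s + q * r) := by
  rcases lt_or_gt_of_ne hy with hy | hy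
  · have := est0 hM h x (y := -y) (by linarith) (p := -q) (q := -p) (r := -s) (s := -r)
      (by linarith) (by rw [neg_neg]; linarith) (by linarith) (by rw [neg_neg]; linarith)
    constructor <;> nlinarith [this.1, this.2]
  · exact est0 hM h x hy hp hq hr hs

variable (H)

theorem av_deriv {ε : ℝ} (hε : ε ≠ 0) {z : ℂ} (hz : z.im ≠ 0) :
    ContDiffAt ℝ 1 (fun w : ℂ => av H w.re (ε * w.im)) z ∧ ∃ L : ℂ →L[ℝ] ℝ,
      HasFDerivAt (fun w : ℂ => av H w.re (ε * w.im)) L z ∧
      L 1 = (H (z.re + ε * z.im) - H z.re) / (ε * z.im) ∧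
      L I = (H (z.re + ε * z.im) - av H z.re (ε * z.im)) / z.im := by
  have ev : (fun w : ℂ => av H w.re (ε * w.im)) =ᶠ[𝓝 z]
      fun w => (pr H (w.re + ε * w.im) - pr H w.re) * (ε * w.im)⁻¹ := by
    filter_upwards [continuous_im.continuousAt.eventually_ne hz] with w hw
    exact av_eq H _ (mul_ne_zero hε hw)
  have h0 := mul_ne_zero hε hz
  have r1 : HasFDerivAt (fun w : ℂ => w.re) reCLM z := reCLM.hasFDerivAt
  have i1 : HasFDerivAt (fun w : ℂ => ε * w.im) (ε • imCLM) z := imCLM.hasFDerivAt.const_mul ε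
  constructor
  · refine ContDiffAt.congr_of_eventuallyEq ?_ ev
    have c1 : ContDiff ℝ 1 fun w : ℂ => w.re := reCLM.contDiff
    have c2 : ContDiff ℝ 1 fun w : ℂ => ε * w.im := contDiff_const.mul imCLM.contDiff
    exact (((pr_cd H).comp (c1.add c2)).sub ((pr_cd H).comp c1)).contDiffAt.mul
      (c2.contDiffAt.inv h0)
  · refine ⟨_, ((((pr_deriv H _).comp_hasFDerivAt z (r1.add i1)).sub
      ((pr_deriv H _).comp_hasFDerivAt z r1)).mul
      ((hasDerivAt_inv h0).comp_hasFDerivAt z i1)).congr_of_eventuallyEq ev, ?_, ?_⟩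
    · simp; field_simp
    · rw [av_eq H _ h0]; simp; field_simp; ring

/-- the extension -/
noncomputable def E (z : ℂ) : ℂ :=
  ((av H z.re (1 * z.im) + av H z.re (-1 * z.im)) / 2 : ℝ) +
    ((av H z.re (1 * z.im) - av H z.re (-1 * z.im)) / 2 : ℝ) * I

theorem E_re (z : ℂ) : (E H z).re = (av H z.re z.im + av H z.re (-z.im)) / 2 := by
  simp only [E, add_re, ofReal_re, mul_re, I_re, I_im, ofReal_im]; simp

theorem E_im (z : ℂ) : (E H z).im = (av H z.re z.im - av H z.re (-z.im)) / 2 := by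
  simp only [E, add_im, ofReal_re, mul_im, I_re, I_im, ofReal_im]; simp

theorem E_cont : Continuous (E H) := by
  have k : ∀ ε : ℝ, Continuous fun z : ℂ => av H z.re (ε * z.im) := fun ε =>
    (av_cont H).comp (f := fun z : ℂ => (z.re, ε * z.im)) (by fun_prop)
  have := k 1
  have := k (-1)
  unfold E
  fun_prop

theorem E_real (x : ℝ) : E H x = H x := by
  apply Complex.ext <;> simp [E_re, E_im, av_zero]

theorem E_inj : Function.Injective (E H) := by
  intro z w e
  have e1 := congrArg re e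
  have e2 := congrArg im e
  rw [E_re, E_re] at e1
  rw [E_im, E_im] at e2
  have key : ∀ x y x' y', av H x y = av H x' y' → av H x (-y) = av H x' (-y') → ¬ x < x' := by
    intro x y x' y' a b h
    have c1 : ¬ x + y ≤ x' + y' := fun k => (av_lt H h.le k (Or.inl h)).ne a
    have c2 : ¬ x + -y ≤ x' + -y' := fun k => (av_lt H h.le k (Or.inl h)).ne b
    push Not at c1 c2
    linarith
  have a : av H z.re z.im = av H w.re w.im := by linarith
  have b : av H z.re (-z.im) = av H w.re (-w.im) := by linarith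
  have hx : z.re = w.re := le_antisymm (not_lt.1 (key _ _ _ _ a.symm b.symm))
    (not_lt.1 (key _ _ _ _ a b))
  refine Complex.ext hx ?_
  rcases lt_trichotomy z.im w.im with h | h | h
  · exact absurd a (av_lt H hx.le (by linarith) (Or.inr (by linarith))).ne
  · exact h
  · exact absurd a (av_lt H hx.ge (by linarith) (Or.inr (by linarith))).ne'

theorem E_keep {s : ℝ} (hs : s = 1 ∨ s = -1) (z : ℂ) : E H z ∈ AN.Hs s ↔ z ∈ AN.Hs s := by
  simp only [AN.Hs, mem_ofPred_eq, E_im]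
  rcases lt_trichotomy z.im 0 with h | h | h
  · have := av_lt H (x := z.re) (y := z.im) (y' := -z.im) le_rfl (by linarith) (Or.inr (by linarith))
    rcases hs with rfl | rfl <;> constructor <;> intro <;> linarith
  · simp [h]
  · have := av_lt H (x := z.re) (y := -z.im) (y' := z.im) le_rfl (by linarith) (Or.inr (by linarith))
    rcases hs with rfl | rfl <;> constructor <;> intro <;> linarith

theorem E_proper : Tendsto (E H) (cocompact ℂ) (cocompact ℂ) := by
  refine tendsto_cocompact_cocompact_of_norm fun R => ⟨|H.symm (-(2 * R))| + |H.symm (2 * R)| +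
    2 * (H.symm (6 * R) - H.symm (-(2 * R))), fun z hz => ?_⟩
  by_contra hR
  have b1 := abs_le.1 ((abs_re_le_norm _).trans (not_lt.1 hR))
  have b2 := abs_le.1 ((abs_im_le_norm _).trans (not_lt.1 hR))
  rw [E_re] at b1
  rw [E_im] at b2
  have k : av H z.re |z.im| ≤ 2 * R ∧ -(2 * R) ≤ av H z.re (-|z.im|) := by
    rcases abs_cases z.im with h | h <;> rw [h.1]
    · constructor <;> linarith
    · rw [neg_neg]; constructor <;> linarith
  have h0 := abs_nonneg z.im
  have a1 := (av_pos H z.re h0).1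
  have a2 := (av_neg H z.re (y := -|z.im|) (by linarith)).2
  have a3 := av_half H z.re |z.im|
  have a4 := (av_pos H z.re (y := |z.im| / 2) (by linarith)).1
  have a5 := (av_pos H (z.re + |z.im| / 2) (y := |z.im| / 2) (by linarith)).1
  have c1 : z.re ≤ H.symm (2 * R) := H.le_symm_apply.2 (by linarith)
  have c2 : H.symm (-(2 * R)) ≤ z.re := H.symm_apply_le.2 (by linarith)
  have c3 : z.re + |z.im| / 2 ≤ H.symm (6 * R) := H.le_symm_apply.2 (by linarith)
  have c4 : |z.re| ≤ |H.symm (-(2 * R))| + |H.symm (2 * R)| := by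
    rw [abs_le]
    constructor <;> linarith [le_abs_self (H.symm (2 * R)), neg_abs_le (H.symm (-(2 * R))),
      abs_nonneg (H.symm (2 * R)), abs_nonneg (H.symm (-(2 * R)))]
  linarith [norm_le_abs_re_add_abs_im z]

variable {H}

theorem E_dist {M : ℝ} (hM : 1 ≤ M) (h : QS M H) {z : ℂ} (hz : z.im ≠ 0) :
    AN.Dist (4 * M * (M + 1)) (E H) z ∧ 0 < (fderiv ℝ (E H) z).det := by
  obtain ⟨c1, L1, d1, a1, b1⟩ := av_deriv H one_ne_zero hz
  obtain ⟨c2, L2, d2, a2, b2⟩ := av_deriv H (ε := -1) (by norm_num) hz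
  have cd : ContDiffAt ℝ 1 (E H) z :=
    (ofRealCLM.contDiff.contDiffAt.comp z ((c1.add c2).div_const 2)).add
      ((ofRealCLM.contDiff.contDiffAt.comp z ((c1.sub c2).div_const 2)).mul contDiffAt_const)
  have hd : HasFDerivAt (E H) _ z :=
    (ofRealCLM.hasFDerivAt.comp z ((d1.add d2).mul_const (2 : ℝ)⁻¹)).add
      ((ofRealCLM.hasFDerivAt.comp z ((d1.sub d2).mul_const (2 : ℝ)⁻¹)).mul_const I)
  have v : ∀ v, (fderiv ℝ (E H) z v).re = (L1 v + L2 v) / 2 ∧
      (fderiv ℝ (E H) z v).im = (L1 v - L2 v) / 2 := fun v => by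
    rw [hd.fderiv]; simp; constructor <;> ring
  simp only [one_mul, neg_mul] at a1 a2 b1 b2
  obtain ⟨e1, e2⟩ := est hM h z.re hz rfl rfl rfl rfl
  have n1 := norm_sq_le (fderiv ℝ (E H) z)
  have n2 := det_eq (fderiv ℝ (E H) z)
  simp only [(v _).1, (v _).2, a1, a2, b1, b2] at n1 n2
  generalize H (z.re + z.im) = A, H z.re = B, H (z.re + -z.im) = C, av H z.re z.im = U,
    av H z.re (-z.im) = V at *
  have y2 : 0 < 2 * z.im ^ 2 := by positivity
  have n3 : (fderiv ℝ (E H) z).det = ((A - B) * (V - C) + (B - C) * (A - U)) / (2 * z.im ^ 2) := by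
    rw [n2]; field_simp; ring
  have p : 0 < (fderiv ℝ (E H) z).det := n3 ▸ div_pos e1 y2
  refine ⟨⟨cd, p.ne', n1.trans ?_⟩, p⟩
  rw [abs_of_pos p, n3, ← mul_div_assoc]
  refine le_trans (le_of_eq ?_) (div_le_div_of_nonneg_right e2 y2.le)
  field_simp; ring

theorem E_surj {M : ℝ} (hM : 1 ≤ M) (h : QS M H) : Function.Surjective (E H) := by
  have cl : IsClosed (range (E H)) :=
    (isProperMap_iff_tendsto_cocompact.2 ⟨E_cont H, E_proper H⟩).isClosedMap.isClosed_range
  have key : ∀ s : ℝ, s = 1 ∨ s = -1 → AN.Hs s ⊆ E H '' AN.Hs s := by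
    intro s hs
    have op : IsOpen (AN.Hs s) := isOpen_lt continuous_const (by fun_prop)
    have cv : Convex ℝ (AN.Hs s) :=
      convex_halfSpace_gt (f := fun z : ℂ => s * z.im) ⟨by intros; simp [mul_add], by
        intros; simp; ring⟩ 0
    have ne : (s : ℂ) * I ∈ AN.Hs s := by rcases hs with rfl | rfl <;> simp [AN.Hs]
    refine cv.isPreconnected.subset_of_closure_inter_subset (isOpen_iff_mem_nhds.2 ?_)
      ⟨_, (E_keep H hs _).2 ne, _, ne, rfl⟩ ?_
    · rintro _ ⟨z, hz, rfl⟩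
      have hz' : z.im ≠ 0 := fun e => by simp [AN.Hs, e] at hz
      obtain ⟨⟨c, d, -⟩, -⟩ := E_dist hM h hz'
      rw [← (c.hasStrictFDerivAt one_ne_zero).map_nhds_eq_of_surj
        (LinearMap.range_eq_top.2 ((fderiv ℝ (E H) z).toContinuousLinearEquivOfDetNeZero d).surjective)]
      exact image_mem_map (op.mem_nhds hz)
    · rintro w ⟨h1, h2⟩
      obtain ⟨z, rfl⟩ := cl.closure_subset_iff.2 (image_subset_range _ _) h1
      exact ⟨z, (E_keep H hs z).1 h2, rfl⟩
  intro w
  rcases lt_trichotomy w.im 0 with e | e | e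
  · exact image_subset_range _ _ (key (-1) (Or.inr rfl) (by simpa [AN.Hs] using e))
  · exact ⟨H.symm w.re, by rw [E_real]; apply Complex.ext <;> simp [e]⟩
  · exact image_subset_range _ _ (key 1 (Or.inl rfl) (by simpa [AN.Hs] using e))

end BA

/-- Beurling-Ahlfors -/
theorem stBA (H : ℝ ≃o ℝ) (M : ℝ) (hM : 1 ≤ M) (h : QS M H) : ∃ (e : ℂ ≃ₜ ℂ) (K : ℝ),
    (∀ x : ℝ, e x = H x) ∧ (∀ s, s = 1 ∨ s = -1 → ∀ z, e z ∈ AN.Hs s ↔ z ∈ AN.Hs s) ∧
    ∀ z : ℂ, z.im ≠ 0 → AN.Dist K e z ∧ 0 < (fderiv ℝ e z).det := by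
  have hh : IsHomeomorph (BA.E H) := isHomeomorph_iff_continuous_isClosedMap_bijective.2
    ⟨BA.E_cont H, (isProperMap_iff_tendsto_cocompact.2 ⟨BA.E_cont H, BA.E_proper H⟩).isClosedMap,
      BA.E_inj H, BA.E_surj hM h⟩
  exact ⟨hh.homeomorph _, _, BA.E_real H, fun s hs => BA.E_keep H hs, fun z hz => BA.E_dist hM h hz⟩

end Pool.Agent.Lib.THU.FA
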