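import Pool.Agent.Lib.THU.FA.Cusp

/-!
Separation preserving bijections of the cusps are monotone after normalisation; extension to the
real line; periodic homeomorphisms are bi-Lipschitz at large scale.
-/

namespace Pool.Agent.Lib.THU.FA

open OnePoint

theorem D_coe (p q : ℚ) : (D p q : ℚ) = p.den * q.den * (p - q) := by
  have h1 := Rat.mul_den_eq_num p
  have h2 := Rat.mul_den_eq_num q
  simp only [D, nu_coe, de_coe]
  push_cast
  rw [← h1, ← h2]; ring

theorem D_inf (q : ℚ) : D ∞ q = q.den := by simp [D]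

theorem sep_inf (r p q : ℚ) : Sep ∞ r p q ↔ (p - r) * (q - r) < 0 := by
  unfold Sep
  rw [← Int.cast_lt (R := ℚ)]
  push_cast
  rw [D_coe, D_coe, D_inf, D_inf]
  have : (0 : ℚ) < (p.den * q.den * r.den) ^ 2 := by positivity
  rw [← mul_lt_mul_iff_right₀ this (b := (p - r) * (q - r))]
  push_cast
  constructor <;> intro h <;> linarith

theorem mono_of_btw {g : ℚ → ℚ} (hb : ∀ x y z, x < y → y < z → (g x - g y) * (g z - g y) < 0)
    (h0 : g 0 < g 1) : StrictMono g := by
  have k1 : ∀ x y z, x < y → y < z → (g x < g y ↔ g y < g z) := by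
    intro x y z h1 h2
    have := hb x y z h1 h2
    constructor <;> intro h <;> nlinarith
  have k2 : ∀ x y z, x < y → y < z → (g x < g y ↔ g x < g z) := by
    intro x y z h1 h2
    have := hb x y z h1 h2
    refine ⟨fun h => h.trans ((k1 x y z h1 h2).1 h), fun h => ?_⟩
    by_contra h'
    nlinarith
  have k3 : ∀ x y w, w < x → x < y → (g x < g y ↔ g w < g x) := fun x y w h1 h2 =>
    (k1 w x y h1 h2).symm
  intro x y hxy
  have hw : min x 0 - 1 < x := by linarith [min_le_left x 0]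
  have hw0 : min x 0 - 1 < 0 := by linarith [min_le_right x 0]
  have hz : x < max x 0 + 1 := by linarith [le_max_left x 0]
  have hz0 : 0 < max x 0 + 1 := by linarith [le_max_right x 0]
  rw [k3 x y _ hw hxy, k2 _ _ _ hw hz, ← k2 _ _ _ hw0 hz0, ← k3 0 1 _ hw0 one_pos]
  exact h0

/-- the reflection -/
noncomputable def Rf : GZ := mk (-1) 0 0 1 (by simp)

theorem Rf_inf : Rf • (∞ : P) = ∞ := (smul_inf_iff _).2 rfl

theorem Rf_coe (q : ℚ) : Rf • (q : P) = ((-q : ℚ) : P) := by
  rw [smul_def, smul_some_eq_ite]; simp [Rf]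

/-- normal form of a separation preserving bijection -/
theorem norm_form (ψ : P ≃ P) (hs : ∀ a b c e, Sep a b c e → Sep (ψ a) (ψ b) (ψ c) (ψ e)) :
    ∃ (A : GZ) (g : ℚ ≃o ℚ), ∀ p, ψ p = A • (p.map g : P) := by
  obtain ⟨A, hA⟩ := exists_inf (ψ ∞)
  have h1 : ∀ q : ℚ, ∃ r : ℚ, ψ q = A • (r : P) := by
    intro q
    have : A⁻¹ • ψ q ≠ ∞ := by
      rw [Ne, inv_smul_eq_iff, hA]; simp
    obtain ⟨r, hr⟩ := ne_infty_iff_exists.1 this
    exact ⟨r, by rw [hr, smul_inv_smul]⟩
  choose g hg using h1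
  have hb : ∀ x y z, x < y → y < z → (g x - g y) * (g z - g y) < 0 := by
    intro x y z h1 h2
    have := hs ∞ y x z ((sep_inf _ _ _).2 (by nlinarith))
    rwa [← hA, hg, hg, hg, sep_smul, sep_inf] at this
  have hsu : Function.Surjective g := by
    intro r
    obtain ⟨p, hp⟩ := ψ.surjective (A • (r : P))
    cases p using OnePoint.rec with
    | infty => rw [← hA] at hp; simp at hp
    | coe p => exact ⟨p, by simpa [hg] using hp⟩
  have hne : g 0 ≠ g 1 := fun e => by
    have := hb 0 1 2 one_pos one_lt_two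
    simp [e] at this
  rcases lt_or_gt_of_ne hne with h | h
  · refine ⟨A, (mono_of_btw hb h).orderIsoOfSurjective g hsu, fun p => ?_⟩
    cases p using OnePoint.rec with
    | infty => simp [hA]
    | coe p => simp [hg]
  · have hm : StrictMono fun q => -g q :=
      mono_of_btw (fun x y z h1 h2 => by linarith [hb x y z h1 h2]) (by linarith)
    refine ⟨A * Rf, hm.orderIsoOfSurjective _ (neg_surjective.comp hsu), fun p => ?_⟩
    cases p using OnePoint.rec with
    | infty => simp [mul_smul, Rf_inf, hA]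
    | coe p => simp [hg, mul_smul, Rf_coe]

/-- an order automorphism of the rationals extends to the reals -/
theorem ext_real (g : ℚ ≃o ℚ) : ∃ h : ℝ ≃o ℝ, ∀ q : ℚ, h q = g q := by
  let H : ℝ → ℝ := fun x => sSup ((fun q : ℚ => (g q : ℝ)) '' {q | (q : ℝ) < x})
  have up : ∀ (x : ℝ) (r : ℚ), x ≤ r →
      (g r : ℝ) ∈ upperBounds ((fun q : ℚ => (g q : ℝ)) '' {q | (q : ℝ) < x}) := by
    rintro x r hr _ ⟨q, hq, rfl⟩
    have : q ≤ r := by exact_mod_cast (lt_of_lt_of_le hq hr).le
    simpa using this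
  have h1 : ∀ (x : ℝ) (q : ℚ), q < x → g q ≤ H x := fun x q hq => by
    obtain ⟨r, hr⟩ := exists_rat_gt x
    exact le_csSup ⟨_, up x r hr.le⟩ ⟨q, hq, rfl⟩
  have h2 : ∀ (x : ℝ) (r : ℚ), x ≤ r → H x ≤ g r := fun x r hr => by
    obtain ⟨q, hq⟩ := exists_rat_lt x
    exact csSup_le ⟨_, q, hq, rfl⟩ (up x r hr)
  have hm : StrictMono H := fun x y hxy => by
    obtain ⟨q, a1, a2⟩ := exists_rat_btwn hxy
    obtain ⟨r, a3, a4⟩ := exists_rat_btwn a2
    have : (g q : ℝ) < g r := by simpa using a3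
    linarith [h2 x q a1.le, h1 y r a4]
  have he : ∀ q : ℚ, H q = g q := fun q => by
    refine le_antisymm (h2 _ _ le_rfl) (le_of_forall_lt_imp_le_of_dense fun a ha => ?_)
    obtain ⟨r, a1, a2⟩ := exists_rat_btwn ha
    have := h1 q (g.symm r) (by rw [Rat.cast_lt, g.symm_apply_lt]; exact_mod_cast a2)
    simp only [OrderIso.apply_symm_apply] at this
    linarith
  have hr : ∀ r : ℚ, H (g.symm r : ℚ) = r := fun r => by simp [he]
  have hc : Continuous H := hm.monotone.continuous_of_denseRange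
    (Rat.denseRange_cast.mono (by rintro _ ⟨r, rfl⟩; exact ⟨_, hr r⟩))
  refine ⟨hm.orderIsoOfSurjective H (hc.surjective ?_ ?_), he⟩
  · refine hm.monotone.tendsto_atTop_atTop fun b => ?_
    obtain ⟨r, h⟩ := exists_rat_gt b
    exact ⟨_, (hr r).symm ▸ h.le⟩
  · refine hm.monotone.tendsto_atBot_atBot fun b => ?_
    obtain ⟨r, h⟩ := exists_rat_lt b
    exact ⟨_, (hr r).symm ▸ h.le⟩

/-- a periodic increasing homeomorphism is bi-Lipschitz at scales `≥ δ` -/
theorem bilip (h : ℝ ≃o ℝ) {n m δ : ℝ} (hn : 0 < n) (hδ : 0 < δ)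
    (hp : ∀ x, h (x + n) = h x + m) : ∃ C : ℝ, 1 ≤ C ∧ ∀ x y, δ ≤ y - x →
      y - x ≤ C * (h y - h x) ∧ h y - h x ≤ C * (y - x) := by
  have hm : 0 < m := by linarith [hp 0, h.strictMono (show 0 < 0 + n by linarith)]
  have hk : ∀ (k : ℕ) x, h (x + k * n) = h x + k * m := by
    intro k x
    induction k with
    | zero => simp
    | succ k ih => push_cast; rw [add_mul, one_mul, ← add_assoc, hp, ih]; ring
  have per : Function.Periodic (fun x => h (x + δ) - h x) n := fun x => by
    simp only [add_right_comm x n δ, hp]; ring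
  obtain ⟨x0, -, h0⟩ := (isCompact_Icc (a := 0) (b := n)).exists_isMinOn ⟨0, le_rfl, hn.le⟩
    (f := fun x => h (x + δ) - h x) (by have := h.continuous; fun_prop)
  set c := h (x0 + δ) - h x0
  have hc : 0 < c := sub_pos.2 (h.strictMono (by linarith))
  have low : ∀ x, c ≤ h (x + δ) - h x := fun x => by
    obtain ⟨y, hy, e⟩ := per.exists_mem_Ico₀ hn x
    exact (h0 (Set.Ico_subset_Icc_self hy)).trans_eq e.symm
  have p1 : 0 < n / m + n / c := by positivity
  have p2 : 0 < m / n + m / δ := by positivity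
  refine ⟨1 + (n / m + n / c) + (m / n + m / δ), by linarith, fun x y hxy => ?_⟩
  have hL : 0 ≤ (y - x) / n := div_nonneg (by linarith) hn.le
  have a1 := (le_div_iff₀ hn).1 (Nat.floor_le hL)
  have a2 := (div_lt_iff₀ hn).1 (Nat.lt_floor_add_one ((y - x) / n))
  generalize ⌊(y - x) / n⌋₊ = k at a1 a2
  have b1 : h x + k * m ≤ h y := by rw [← hk]; exact h.monotone (by linarith)
  have b2 : h y ≤ h x + (k + 1) * m := by
    have := hk (k + 1) x
    push_cast at this
    rw [← this]; exact h.monotone (by linarith)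
  have b3 : c ≤ h y - h x := by linarith [low x, h.monotone (show x + δ ≤ y by linarith)]
  have c1 : k * n ≤ n / m * (h y - h x) := by
    rw [div_mul_eq_mul_div, le_div_iff₀ hm]; nlinarith
  have c2 : n ≤ n / c * (h y - h x) := by
    rw [div_mul_eq_mul_div, le_div_iff₀ hc]; nlinarith
  have c3 : k * m ≤ m / n * (y - x) := by
    rw [div_mul_eq_mul_div, le_div_iff₀ hn]; nlinarith
  have c4 : m ≤ m / δ * (y - x) := by
    rw [div_mul_eq_mul_div, le_div_iff₀ hδ]; nlinarith
  constructor <;> nlinarith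

end Pool.Agent.Lib.THU.FA
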