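import Pool.Agent.Lib.THU.FA.Defs

/-!
An injective map of the cusps that sends Farey edges to pairs of bounded determinant
reflects separation.
-/

namespace Pool.Agent.Lib.THU.FA

open Matrix OnePoint

section cone

variable (α β γ δ : ℤ) (f : ℤ → ℤ → Prop) (N : ℤ)

theorem cone_uni (H : ∀ u v u' v', 0 < α * u + β * v → 0 < γ * u + δ * v → 0 < α * u' + β * v' →
      0 < γ * u' + δ * v' → |u * v' - u' * v| = 1 → f u v → ¬ f u' v' →
      α * u + β * v + (α * u' + β * v') ≤ N) (k : ℕ) :
    ∀ u v u' v', 0 < α * u + β * v → 0 < γ * u + δ * v → 0 < α * u' + β * v' →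
      0 < γ * u' + δ * v' → |u * v' - u' * v| = 1 → f u v → ¬ f u' v' →
      α * u + β * v + (α * u' + β * v') + k ≤ N := by
  induction k with
  | zero => simpa using H
  | succ k ih =>
    intro u v u' v' h1 h2 h3 h4 h5 h6 h7
    by_cases hw : f (u + u') (v + v')
    · have := ih (u + u') (v + v') u' v' (by linarith) (by linarith) h3 h4
        (by rw [← h5]; congr 1; ring) hw h7
      push_cast; linarith
    · have := ih u v (u + u') (v + v') h1 h2 (by linarith) (by linarith)
        (by rw [← h5]; congr 1; ring) h6 hw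
      push_cast; linarith

theorem cone (H : ∀ u v u' v', 0 < α * u + β * v → 0 < γ * u + δ * v → 0 < α * u' + β * v' →
      0 < γ * u' + δ * v' → |u * v' - u' * v| = 1 → f u v → ¬ f u' v' →
      α * u + β * v + (α * u' + β * v') ≤ N) (n : ℕ) :
    ∀ u v u' v', IsCoprime u v → IsCoprime u' v' → 0 < α * u + β * v → 0 < γ * u + δ * v →
      0 < α * u' + β * v' → 0 < γ * u' + δ * v' → |u * v' - u' * v| = n → f u v → f u' v' := by
  have uni : ∀ u v u' v', 0 < α * u + β * v → 0 < γ * u + δ * v → 0 < α * u' + β * v' →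
      0 < γ * u' + δ * v' → |u * v' - u' * v| = 1 → f u v → f u' v' := by
    intro u v u' v' h1 h2 h3 h4 h5 h6
    by_contra h7
    have := cone_uni α β γ δ f N H N.toNat u v u' v' h1 h2 h3 h4 h5 h6 h7
    have := Int.self_le_toNat N
    omega
  induction n using Nat.strong_induction_on with
  | _ n ih =>
    intro u v u' v' c1 c2 h1 h2 h3 h4 h5 h6
    obtain ⟨s, t, hst⟩ := c1
    obtain ⟨e, he, hΔ⟩ : ∃ e : ℤ, e * e = 1 ∧ u * v' - u' * v = e * n := by
      rcases (abs_eq (Int.natCast_nonneg n)).1 h5 with h | h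
      · exact ⟨1, by simp, by simpa using h⟩
      · exact ⟨-1, by simp, by simpa using h⟩
    have eu : u' = (s * u' + t * v') * u - e * n * t := by
      linear_combination (-u') * hst - t * hΔ
    have ev : v' = (s * u' + t * v') * v + e * n * s := by
      linear_combination (-v') * hst + s * hΔ
    set k := s * u' + t * v'
    rcases Nat.eq_zero_or_pos n with rfl | hn
    · simp only [Nat.cast_zero, mul_zero, zero_mul, sub_zero, add_zero] at eu ev
      have hk : IsUnit k := c2.isUnit_of_dvd' ⟨u, eu⟩ ⟨v, ev⟩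
      rcases Int.isUnit_iff.1 hk with hk | hk
      · rw [eu, ev, hk]; simpa using h6
      · rw [eu, ev, hk] at h3; linarith
    have hn' : (0 : ℤ) < n := by exact_mod_cast hn
    obtain ⟨j, r, r0, rn, hj⟩ : ∃ j r : ℤ, 0 ≤ r ∧ r < n ∧ n * j = k + r :=
      ⟨-((-k) / n), (-k) % n, Int.emod_nonneg _ hn'.ne', Int.emod_lt_of_pos _ hn', by
        have := Int.mul_ediv_add_emod (-k) n; linarith⟩
    have wu : n * (j * u - e * t) = u' + r * u := by rw [eu]; linear_combination u * hj
    have wv : n * (j * v + e * s) = v' + r * v := by rw [ev]; linear_combination v * hj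
    have p1 : 0 < α * (j * u - e * t) + β * (j * v + e * s) := by
      refine pos_of_mul_pos_left (b := (n : ℤ)) ?_ hn'.le
      have := mul_nonneg r0 h1.le
      linear_combination this + h3 - α * wu - β * wv
    have p2 : 0 < γ * (j * u - e * t) + δ * (j * v + e * s) := by
      refine pos_of_mul_pos_left (b := (n : ℤ)) ?_ hn'.le
      have := mul_nonneg r0 h2.le
      linear_combination this + h4 - γ * wu - δ * wv
    have ae : |e| = 1 := by
      rcases Int.eq_one_or_neg_one_of_mul_eq_one he with rfl | rfl <;> simp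
    have f1 : f (j * u - e * t) (j * v + e * s) := by
      refine uni u v _ _ h1 h2 p1 p2 ?_ h6
      rw [← ae]; congr 1; linear_combination e * hst
    refine ih r.toNat (by omega) _ _ u' v' ⟨-(e * v), e * u, ?_⟩ c2 p1 p2 h3 h4 ?_ f1
    · linear_combination (e * e) * hst + he
    · have : (j * u - e * t) * v' - u' * (j * v + e * s) = e * r := by
        apply mul_left_cancel₀ hn'.ne'
        linear_combination v' * wu - u' * wv + r * hΔ
      rw [this, abs_mul, ae, one_mul, abs_of_nonneg r0, Int.toNat_of_nonneg r0]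

end cone

theorem pt_neg (a b : ℤ) : pt (-a) (-b) = pt a b := by simp [pt, neg_div_neg_eq]

theorem finite_near {a b : P} (hab : a ≠ b) (M : ℤ) :
    {w : P | |D a w| ≤ M ∧ |D b w| ≤ M}.Finite := by
  refine Set.Finite.of_finite_image (f := fun w => (D a w, D b w))
    (((Set.finite_Icc (-M) M).prod (Set.finite_Icc (-M) M)).subset ?_) ?_
  · rintro _ ⟨w, ⟨h1, h2⟩, rfl⟩
    exact ⟨abs_le.1 h1, abs_le.1 h2⟩
  · intro w _ w' _ h
    simp only [Prod.mk.injEq] at h
    have := pluecker a b w w'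
    rw [h.1, h.2, sub_self] at this
    exact D_eq_zero.1 ((mul_eq_zero.1 this).resolve_left (D_ne hab))

theorem Sep.ne {a b c e : P} (h : Sep a b c e) :
    a ≠ b ∧ a ≠ c ∧ c ≠ b ∧ a ≠ e ∧ e ≠ b ∧ c ≠ e := by
  unfold Sep at h
  refine ⟨?_, ?_, ?_, ?_, ?_, ?_⟩ <;> rintro rfl
  · rw [D_swap a c, D_swap a e] at h
    nlinarith [mul_nonneg (mul_self_nonneg (D a c)) (mul_self_nonneg (D a e))]
  · simp [D_self] at h
  · simp [D_self] at h
  · simp [D_self] at h
  · simp [D_self] at h
  · exact absurd h (not_lt.2 (mul_self_nonneg _))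

/-- a pair crossing `a, b` has its ends close to `a` and `b` -/
theorem Sep.bound {a b c e : P} (h : Sep a b c e) :
    |D a c| ≤ |D a b| * |D c e| ∧ |D b c| ≤ |D a b| * |D c e| := by
  obtain ⟨-, h1, h2, h3, h4, -⟩ := h.ne
  unfold Sep at h
  rw [D_swap b c, D_swap b e] at h
  have hX : |D a c * D b e| ≤ |D a b * D c e| ∧ |D a e * D b c| ≤ |D a b * D c e| := by
    rw [pluecker a b c e]
    have : (D a c * D b e) * (D a e * D b c) < 0 := by linarith
    generalize D a c * D b e = X at *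
    generalize D a e * D b c = Y at *
    rcases mul_neg_iff.1 this with ⟨hx, hy⟩ | ⟨hx, hy⟩
    · rw [abs_of_pos hx, abs_of_neg hy, abs_of_pos (by linarith)]; constructor <;> linarith
    · rw [abs_of_neg hx, abs_of_pos hy, abs_of_neg (by linarith)]; constructor <;> linarith
  simp only [abs_mul] at hX
  have i1 := Int.one_le_abs (D_ne h4.symm)
  have i2 := Int.one_le_abs (D_ne h3)
  constructor
  · nlinarith [abs_nonneg (D a c)]
  · nlinarith [abs_nonneg (D b c)]

theorem Sep.symm {a b c e : P} (h : Sep a b c e) : Sep a b e c := by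
  unfold Sep at *; linarith

theorem Sep.swap {a b c e : P} (h : Sep a b c e) : Sep b a c e := by
  unfold Sep at *
  rw [D_swap c b, D_swap a c, D_swap e b, D_swap a e]; linarith

theorem Sep.flip {a b c e : P} (h : Sep a b c e) : Sep c e a b := by
  unfold Sep at *
  rw [D_swap a c, D_swap e b]; linarith

/-- ORD -/
theorem sep_of_map {ψ : P → P} (hi : Function.Injective ψ) {K : ℤ}
    (hK : ∀ p q, |D p q| = 1 → |D (ψ p) (ψ q)| ≤ K) {a b c e : P}
    (h : Sep (ψ a) (ψ b) (ψ c) (ψ e)) : Sep a b c e := by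
  obtain ⟨n0, n1, n2, n3, n4, -⟩ := h.ne
  have d1 : D a c ≠ 0 := D_ne fun x => n1 (congrArg ψ x)
  have d2 : D c b ≠ 0 := D_ne fun x => n2 (congrArg ψ x)
  have d3 : D a e ≠ 0 := D_ne fun x => n3 (congrArg ψ x)
  have d4 : D e b ≠ 0 := D_ne fun x => n4 (congrArg ψ x)
  by_contra hs
  obtain ⟨N, hN⟩ := (((finite_near n0 (|D (ψ a) (ψ b)| * K)).preimage hi.injOn).image
    fun w => |D a w|).bddAbove
  have key : ∀ η : ℤ, ∀ u v u' v', IsCoprime u v → IsCoprime u' v' →
      0 < -de a * u + nu a * v → 0 < η * de b * u + -(η * nu b) * v →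
      0 < -de a * u' + nu a * v' → 0 < η * de b * u' + -(η * nu b) * v' →
      0 < D (ψ a) (ψ (pt u v)) * D (ψ (pt u v)) (ψ b) →
      0 < D (ψ a) (ψ (pt u' v')) * D (ψ (pt u' v')) (ψ b) := by
    intro η u v u' v' c1 c2 h1 h2 h3 h4
    refine cone _ _ _ _ (fun u v => 0 < D (ψ a) (ψ (pt u v)) * D (ψ (pt u v)) (ψ b)) (N + N) ?_
      (u * v' - u' * v).natAbs u v u' v' c1 c2 h1 h2 h3 h4 (by simp)
    intro u v u' v' h1 h2 h3 h4 h5 h6 h7
    have cc : IsCoprime u v ∧ IsCoprime u' v' := by
      rcases (abs_eq zero_le_one).1 h5 with h | h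
      · exact ⟨⟨v', -u', by linarith⟩, ⟨-v, u, by linarith⟩⟩
      · exact ⟨⟨-v', u', by linarith⟩, ⟨v, -u, by linarith⟩⟩
    obtain ⟨ε, hε, e1, e2⟩ := vec_pt cc.1
    obtain ⟨ε', hε', e3, e4⟩ := vec_pt cc.2
    have a1 : |D a (pt u v)| = -de a * u + nu a * v := by
      rw [← abs_of_pos h1, D, e1, e2]
      rcases hε with rfl | rfl
      · congr 1; ring
      · rw [← abs_neg]; congr 1; ring
    have a2 : |D a (pt u' v')| = -de a * u' + nu a * v' := by
      rw [← abs_of_pos h3, D, e3, e4]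
      rcases hε' with rfl | rfl
      · congr 1; ring
      · rw [← abs_neg]; congr 1; ring
    have a3 : |D (pt u v) (pt u' v')| = 1 := by
      rw [← h5, D, e1, e2, e3, e4]
      rcases hε with rfl | rfl <;> rcases hε' with rfl | rfl
      · congr 1; ring
      · rw [← abs_neg]; congr 1; ring
      · rw [← abs_neg]; congr 1; ring
      · congr 1; ring
    have b1 : D (ψ a) (ψ (pt u' v')) ≠ 0 := D_ne fun x => by
      rw [← hi x, D_self] at a2; simp at a2; linarith
    have b2 : D (ψ (pt u' v')) (ψ b) ≠ 0 := D_ne fun x => by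
      have : D (pt u' v') b = 0 := D_eq_zero.2 (hi x)
      rw [D, e3, e4] at this
      have h0 : u' * de b - nu b * v' = 0 := by rcases hε' with rfl | rfl <;> linarith
      have : η * de b * u' + -(η * nu b) * v' = η * (u' * de b - nu b * v') := by ring
      rw [this, h0] at h4; simp at h4
    have sp : Sep (ψ a) (ψ b) (ψ (pt u v)) (ψ (pt u' v')) :=
      mul_neg_of_pos_of_neg h6 (lt_of_le_of_ne (not_lt.1 h7) (mul_ne_zero b1 b2))
    have k1 := mul_le_mul_of_nonneg_left (hK _ _ a3) (abs_nonneg (D (ψ a) (ψ b)))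
    have k2 : |D (ψ (pt u' v')) (ψ (pt u v))| = |D (ψ (pt u v)) (ψ (pt u' v'))| := by
      rw [D_swap, abs_neg]
    have s1 := sp.bound
    have s2 := sp.symm.bound
    rw [k2] at s2
    have t1 := hN ⟨pt u v, ⟨s1.1.trans k1, s1.2.trans k1⟩, rfl⟩
    have t2 := hN ⟨pt u' v', ⟨s2.1.trans k1, s2.2.trans k1⟩, rfl⟩
    simp only at t1 t2
    linarith
  have sg : ∀ w : P, D a w ≠ 0 → ∃ u v, IsCoprime u v ∧ pt u v = w ∧ 0 < -de a * u + nu a * v ∧
      (-de a * u + nu a * v) * (de b * u - nu b * v) = D a w * D w b := by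
    intro w hw
    rcases lt_or_gt_of_ne hw with hw | hw
    · refine ⟨-nu w, -de w, (cop w).neg_neg, ?_, by unfold D at hw; linarith, by unfold D; ring⟩
      rw [pt_neg, pt_nu_de]
    · exact ⟨nu w, de w, cop w, pt_nu_de w, by unfold D at hw; linarith, by unfold D; ring⟩
  obtain ⟨u, v, c1, rfl, h1, h2⟩ := sg c d1
  obtain ⟨u', v', c2, rfl, h3, h4⟩ := sg e d3
  have hp : 0 < D a (pt u v) * D (pt u v) b * (D a (pt u' v') * D (pt u' v') b) :=
    lt_of_le_of_ne (not_lt.1 hs) (mul_ne_zero (mul_ne_zero d1 d2) (mul_ne_zero d3 d4)).symm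
  rw [← h2, ← h4] at hp
  have q1 : 0 < (de b * u - nu b * v) * (de b * u' - nu b * v') := by
    refine pos_of_mul_pos_left (b := (-de a * u + nu a * v) * (-de a * u' + nu a * v')) ?_
      (mul_pos h1 h3).le
    linarith
  have q0 : 0 < (de b * u - nu b * v) * (de b * u - nu b * v) :=
    mul_self_pos.2 (left_ne_zero_of_mul q1.ne')
  have k1 := key (de b * u - nu b * v) u v u' v' c1 c2 h1 (by linarith) h3 (by linarith)
  have k2 := key (de b * u - nu b * v) u' v' u v c2 c1 h3 (by linarith) h1 (by linarith)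
  rcases mul_neg_iff.1 h with ⟨hx, hy⟩ | ⟨hx, hy⟩
  · exact absurd (k1 hx) (not_lt.2 hy.le)
  · exact absurd (k2 hy) (not_lt.2 hx.le)

end Pool.Agent.Lib.THU.FA
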