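import Pool.Agent.Lib.THU.FA.Mono

/-!
An equivariant bijection of the cusps is a Moebius map composed with a quasisymmetric
homeomorphism of the real line.
-/

namespace Pool.Agent.Lib.THU.FA

open OnePoint

/-- quasisymmetry -/
def QS (M : ℝ) (h : ℝ → ℝ) : Prop := ∀ x t, 0 ≤ t →
  h (x + t) - h x ≤ M * (h x - h (x - t)) ∧ h x - h (x - t) ≤ M * (h (x + t) - h x)

/-- weight of a cusp -/
noncomputable def wt (p : P) : ℝ := p.elim 1 fun q => q.den

theorem wt_pos (p : P) : 0 < wt p := by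
  cases p using OnePoint.rec with
  | infty => exact one_pos
  | coe q => exact Nat.cast_pos.2 q.pos

/-- normalised determinant: the distance of finite cusps -/
noncomputable def dd (p q : P) : ℝ := (|D p q| : ℤ) / (wt p * wt q)

theorem dd_nonneg (p q : P) : 0 ≤ dd p q :=
  div_nonneg (Int.cast_nonneg (abs_nonneg _)) (mul_pos (wt_pos p) (wt_pos q)).le

theorem dd_comm (p q : P) : dd p q = dd q p := by rw [dd, dd, D_swap p q, abs_neg, mul_comm]

theorem D_coe' (p q : ℚ) : ((|D p q| : ℤ) : ℝ) = p.den * q.den * |(p : ℝ) - q| := by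
  have := congrArg (fun x : ℚ => (x : ℝ)) (D_coe p q)
  simp only [Rat.cast_intCast] at this
  push_cast at this ⊢
  rw [this, abs_mul, abs_of_nonneg (by positivity)]

theorem dd_coe (p q : ℚ) : dd p q = |(p : ℝ) - q| := by
  rw [dd, D_coe']
  exact mul_div_cancel_left₀ _ (mul_pos (wt_pos p) (wt_pos q)).ne'

theorem dd_inf (q : ℚ) : dd ∞ q = 1 := by
  rw [dd, D_inf]; simp [wt]

theorem dd_inf' (q : ℚ) : dd q ∞ = 1 := by rw [dd_comm, dd_inf]

/-- a bound for the cross ratio -/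
def Cr (M : ℝ) (a b c e : P) : Prop := dd a b * dd c e ≤ M * (dd b c * dd a e)

theorem cr_iff (M : ℝ) (a b c e : P) : Cr M a b c e ↔
    ((|D a b| : ℤ) : ℝ) * (|D c e| : ℤ) ≤ M * ((|D b c| : ℤ) * (|D a e| : ℤ)) := by
  have := wt_pos a; have := wt_pos b; have := wt_pos c; have := wt_pos e
  unfold Cr dd
  rw [div_mul_div_comm, div_mul_div_comm, ← mul_div_assoc,
    show wt b * wt c * (wt a * wt e) = wt a * wt b * (wt c * wt e) by ring,
    div_le_div_iff_of_pos_right (by positivity)]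

theorem cr_smul (M : ℝ) (A : GZ) (a b c e : P) :
    Cr M (A • a) (A • b) (A • c) (A • e) ↔ Cr M a b c e := by
  simp only [cr_iff, abs_D_smul]

theorem bilip_dd (g : ℚ ≃o ℚ) {n m : ℤ} (hn : 0 < n) (hp : ∀ q, g (q + n) = g q + m) :
    ∃ C : ℝ, 1 ≤ C ∧ ∀ p q : P, 1 / 4 ≤ dd p q →
      dd p q ≤ C * dd (p.map g) (q.map g) ∧ dd (p.map g) (q.map g) ≤ C * dd p q := by
  obtain ⟨h, hh⟩ := ext_real g
  have hc := h.continuous
  obtain ⟨C, h1, h2⟩ := bilip h (n := n) (m := m) (δ := 1 / 4) (by exact_mod_cast hn)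
    (by norm_num) fun x => Rat.denseRange_cast.induction_on x
      (isClosed_eq (by fun_prop) (by fun_prop)) fun q => by
        have := hh (q + n)
        rw [hp] at this
        simpa [hh] using this
  refine ⟨C, h1, fun p q hd => ?_⟩
  cases p using OnePoint.rec with
  | infty =>
    cases q using OnePoint.rec with
    | infty => simp [dd, D_self]
    | coe q => simpa [dd_inf] using h1
  | coe p =>
    cases q using OnePoint.rec with
    | infty => simpa [dd_inf'] using h1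
    | coe q =>
      simp only [map_some, dd_coe, ← hh] at hd ⊢
      rcases le_total (p : ℝ) q with e | e
      · rw [abs_sub_comm, abs_of_nonneg (sub_nonneg.2 e)] at hd ⊢
        rw [abs_sub_comm, abs_of_nonneg (sub_nonneg.2 (h.monotone e))]
        exact h2 _ _ hd
      · rw [abs_of_nonneg (sub_nonneg.2 e)] at hd ⊢
        rw [abs_of_nonneg (sub_nonneg.2 (h.monotone e))]
        exact h2 _ _ hd

theorem gap (B : GZ) {p q : P} (hpq : p ≠ q)
    (h : ((|B 1 0 * nu p + B 1 1 * de p| : ℤ) : ℝ) * (|B 1 0 * nu q + B 1 1 * de q| : ℤ) ≤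
      4 * (|D p q| : ℤ)) : 1 / 4 ≤ dd (B • p) (B • q) := by
  have k : ∀ p : P, |B 1 0 * nu p + B 1 1 * de p| = de (B • p) := fun p => by
    obtain ⟨ε, hε, -, e⟩ := vec_smul B p
    rw [← abs_of_nonneg (de_nonneg (B • p)), e]
    rcases hε with rfl | rfl <;> simp only [one_mul, neg_mul, abs_neg]
  rw [k, k, ← abs_D_smul B] at h
  have hne : B • p ≠ B • q := fun e => hpq (smul_left_cancel B e)
  generalize B • p = r, B • q = s at h hne
  cases r using OnePoint.rec with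
  | infty =>
    cases s using OnePoint.rec with
    | infty => exact absurd rfl hne
    | coe q => rw [dd_inf]; norm_num
  | coe r =>
    cases s using OnePoint.rec with
    | infty => rw [dd_inf']; norm_num
    | coe s =>
      rw [dd, le_div_iff₀ (mul_pos (wt_pos _) (wt_pos _))]
      simp only [de_coe, Int.cast_natCast] at h
      simp only [wt, elim_some]
      linarith

/-- Dirichlet approximation -/
theorem dirichlet (x : ℝ) {s : ℝ} (hs : 0 < s) :
    ∃ B : GZ, |(B 1 0 : ℝ)| * s ≤ 1 ∧ |(B 1 0 : ℝ) * x + B 1 1| ≤ s := by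
  rcases le_total 1 s with h | h
  · exact ⟨1, by simp, by simpa using h⟩
  have h1 : 1 ≤ 1 / s := one_le_one_div hs h
  obtain ⟨q, a1, a2⟩ := Real.exists_rat_abs_sub_le_and_den_le x (Nat.floor_pos.2 h1)
  obtain ⟨u, v, e⟩ := Rat.isCoprime_num_den q
  have hq : (0 : ℝ) < q.den := Nat.cast_pos.2 q.pos
  refine ⟨mk u v q.den (-q.num) (Or.inr (by linarith)), ?_, ?_⟩
  · have : (q.den : ℝ) ≤ 1 / s := (Nat.cast_le.2 a2).trans (Nat.floor_le (by linarith))
    simpa using (le_div_iff₀ hs).1 this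
  · have e1 : (q.den : ℝ) * x - q.num = q.den * (x - q) := by
      rw [Rat.cast_def]; field_simp
    have e2 := Nat.lt_floor_add_one (1 / s)
    simp only [mk10, mk11, Int.cast_natCast, Int.cast_neg, ← sub_eq_add_neg]
    rw [e1, abs_mul, abs_of_pos hq]
    rw [le_div_iff₀ (by positivity)] at a1
    rw [div_lt_iff₀ hs] at e2
    nlinarith [mul_nonneg hq.le (abs_nonneg (x - q))]

theorem gaps (x t : ℚ) (ht : 0 < t) : ∃ B : GZ,
    (∀ u : ℚ, |(u : ℝ) - x| ≤ t → 1 / 4 ≤ dd (B • (u : P)) (B • ∞)) ∧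
    ∀ u v : ℚ, |(u : ℝ) - x| ≤ t → |(v : ℝ) - x| ≤ t → t ≤ |(u : ℝ) - v| →
      1 / 4 ≤ dd (B • (u : P)) (B • (v : P)) := by
  have ht' : (0 : ℝ) < t := by exact_mod_cast ht
  obtain ⟨B, h1, h2⟩ := dirichlet x (Real.sqrt_pos.2 ht')
  have hs := Real.mul_self_sqrt ht'.le
  have hs0 := Real.sqrt_pos.2 ht'
  generalize √(t : ℝ) = s at h1 h2 hs hs0
  have k1 : ∀ u : ℚ, |(u : ℝ) - x| ≤ t →
      ((|B 1 0 * nu u + B 1 1 * de u| : ℤ) : ℝ) ≤ u.den * (2 * s) := by
    intro u hu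
    have hq : (0 : ℝ) < u.den := Nat.cast_pos.2 u.pos
    have e1 : (B 1 0 : ℝ) * u.num + B 1 1 * u.den =
        u.den * ((B 1 0 * x + B 1 1) + B 1 0 * (u - x)) := by
      rw [Rat.cast_def u]; field_simp; ring
    simp only [nu_coe, de_coe]
    push_cast
    rw [e1, abs_mul, abs_of_pos hq]
    refine mul_le_mul_of_nonneg_left ((abs_add_le _ _).trans ?_) hq.le
    rw [abs_mul]
    nlinarith [abs_nonneg (B 1 0 : ℝ), mul_le_mul_of_nonneg_left hu (abs_nonneg (B 1 0 : ℝ))]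
  refine ⟨B, fun u hu => ?_, fun u v hu hv huv => gap B (fun e => ?_) ?_⟩
  · rw [dd_comm]
    refine gap B (by simp) ?_
    have := mul_le_mul_of_nonneg_left (k1 u hu) (abs_nonneg (B 1 0 : ℝ))
    have hq : (0 : ℝ) < u.den := Nat.cast_pos.2 u.pos
    rw [D_inf]
    simp only [nu_inf, de_inf, mul_one, mul_zero, add_zero, Int.cast_abs (a := B 1 0),
      Nat.abs_cast, Int.cast_natCast]
    nlinarith
  · rw [coe_eq_coe.1 e] at huv; simp at huv; linarith
  · rw [D_coe']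
    refine (mul_le_mul (k1 u hu) (k1 v hv) (Int.cast_nonneg (abs_nonneg _))
      (by positivity)).trans ?_
    have : (0 : ℝ) ≤ u.den * v.den := by positivity
    nlinarith [mul_le_mul_of_nonneg_left huv this]

variable {F : Type} [Group F] {σ : F →* GZ}

theorem Lat.cr_bound (hσ : Lat σ) (φ : F ≃* F) (ψ : P ≃ P) (h : Eqv σ φ ψ) :
    ∃ M : ℝ, 1 ≤ M ∧ ∀ (B : GZ) a b c e, 1 / 4 ≤ dd (B • a) (B • b) → 1 / 4 ≤ dd (B • c) (B • e) →
      1 / 4 ≤ dd (B • b) (B • c) → 1 / 4 ≤ dd (B • a) (B • e) → Cr 1 a b c e →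
      Cr M (ψ a) (ψ b) (ψ c) (ψ e) := by
  have key : ∀ B : GZ, ∃ C : ℝ, ∀ a b c e, 1 / 4 ≤ dd a b → 1 / 4 ≤ dd c e → 1 / 4 ≤ dd b c →
      1 / 4 ≤ dd a e → Cr 1 a b c e → Cr C (ψ (B • a)) (ψ (B • b)) (ψ (B • c)) (ψ (B • e)) := by
    intro B
    obtain ⟨A, g, hg⟩ := norm_form ((MulAction.toPerm B).trans ψ) fun a b c e k => by
      simpa [hσ.sep_iff φ ψ h, sep_smul] using k
    simp only [Equiv.trans_apply, MulAction.toPerm_apply] at hg
    obtain ⟨x, n, hn, hx⟩ := hσ.exists_par B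
    have f1 : σ (φ x) • A • (∞ : P) = A • (∞ : P) := by
      have := hg ∞
      rw [map_infty] at this
      rw [← this, ← h, hx, par_fix]
    obtain ⟨m, hm⟩ := hσ.par f1
    obtain ⟨C, h1, h2⟩ := bilip_dd g hn (m := m) fun q => by
      have := h x (B • (q : P))
      rw [hx, mul_smul, inv_smul_smul, mul_smul, Tn_coe, hg, hg, hm.smul, mul_smul, inv_smul_smul,
        mul_smul, map_some, map_some, Tn_coe] at this
      simpa using this
    refine ⟨C ^ 4, fun a b c e d1 d2 d3 d4 k => ?_⟩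
    simp only [hg, cr_smul]
    unfold Cr at k ⊢
    have := dd_nonneg (a.map g) (b.map g)
    have := dd_nonneg (c.map g) (e.map g)
    have := dd_nonneg (b.map g) (c.map g)
    calc _ ≤ (C * dd a b) * (C * dd c e) := by
          gcongr
          exacts [(h2 _ _ d1).2, (h2 _ _ d2).2]
      _ = C ^ 2 * (dd a b * dd c e) := by ring
      _ ≤ C ^ 2 * (dd b c * dd a e) := mul_le_mul_of_nonneg_left (by linarith) (by positivity)
      _ ≤ C ^ 2 * ((C * dd (b.map g) (c.map g)) * (C * dd (a.map g) (e.map g))) := by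
          gcongr
          exacts [(h2 _ _ d3).1, (h2 _ _ d4).1]
      _ = _ := by ring
  choose C hC using key
  obtain ⟨S, hS⟩ := hσ.fin
  obtain ⟨M, hM⟩ := (S.image C).bddAbove
  refine ⟨max M 1, le_max_right _ _, fun B a b c e d1 d2 d3 d4 k => ?_⟩
  obtain ⟨y, B', hB, e1⟩ := hS B⁻¹
  have e2 : ∀ p : P, ψ p = σ (φ y) • ψ (B' • B • p) := fun p => by
    rw [← h, ← mul_smul, ← e1, inv_smul_smul]
  rw [e2 a, e2 b, e2 c, e2 e, cr_smul]
  refine (hC B' _ _ _ _ d1 d2 d3 d4 ((cr_smul _ _ _ _ _ _).2 k)).trans ?_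
  exact mul_le_mul_of_nonneg_right
    ((hM (Finset.mem_coe.2 (Finset.mem_image_of_mem _ hB))).trans (le_max_left _ _))
    (mul_nonneg (dd_nonneg _ _) (dd_nonneg _ _))

/-- FA3 on the cusps -/
theorem Lat.exists_qs0 (hσ : Lat σ) (φ : F ≃* F) (ψ : P ≃ P) (h : Eqv σ φ ψ) :
    ∃ (A : GZ) (g : ℚ ≃o ℚ) (H : ℝ ≃o ℝ) (M : ℝ), 1 ≤ M ∧ QS M H ∧ (∀ q : ℚ, H q = g q) ∧
      ∀ p, ψ p = A • (p.map g : P) := by
  obtain ⟨A, g, hg⟩ := norm_form ψ fun a b c e => (hσ.sep_iff φ ψ h a b c e).2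
  obtain ⟨H, hH⟩ := ext_real g
  obtain ⟨M, h1, hM⟩ := hσ.cr_bound φ ψ h
  refine ⟨A, g, H, M, h1, ?_, hH, hg⟩
  have hc := H.continuous
  have key : ∀ x t : ℝ, H (x + |t|) - H x ≤ M * (H x - H (x - |t|)) ∧
      H x - H (x - |t|) ≤ M * (H (x + |t|) - H x) := by
    intro x t
    refine Rat.denseRange_cast.induction_on₂ (p := fun x t : ℝ =>
      H (x + |t|) - H x ≤ M * (H x - H (x - |t|)) ∧ H x - H (x - |t|) ≤ M * (H (x + |t|) - H x))
      (IsClosed.and (isClosed_le (by fun_prop) (by fun_prop))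
        (isClosed_le (by fun_prop) (by fun_prop)))
      (fun x t => ?_) x t
    rw [← Rat.cast_abs]
    rcases (abs_nonneg t).eq_or_lt with e | ht
    · simp [← e]
    generalize |t| = t at ht
    obtain ⟨B, hB⟩ := gaps x t ht
    have ht' : (0 : ℝ) < t := by exact_mod_cast ht
    have m1 : H x ≤ H (x + t) := H.monotone (by linarith)
    have m2 : H (x - t) ≤ H x := H.monotone (by linarith)
    have a1 : |((x - t : ℚ) : ℝ) - x| ≤ t := by simp [abs_of_pos ht']
    have a2 : |((x : ℚ) : ℝ) - x| ≤ t := by simp [ht'.le]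
    have a3 : |((x + t : ℚ) : ℝ) - x| ≤ t := by simp [abs_of_pos ht']
    have k1 := hM B (x + t : ℚ) x (x - t : ℚ) ∞ (hB.2 _ _ a3 a2 (by simp [le_abs_self]))
      (hB.1 _ a1) (hB.2 _ _ a2 a1 (by simp [le_abs_self])) (hB.1 _ a3)
      (by simp [Cr, dd_coe, dd_inf'])
    have k2 := hM B (x - t : ℚ) x (x + t : ℚ) ∞ (hB.2 _ _ a1 a2 (by simp [le_abs_self]))
      (hB.1 _ a3) (hB.2 _ _ a2 a3 (by simp [le_abs_self])) (hB.1 _ a1)
      (by simp [Cr, dd_coe, dd_inf'])
    simp only [hg, cr_smul] at k1 k2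
    simp only [Cr, map_some, map_infty, dd_coe, dd_inf', mul_one, ← hH] at k1 k2
    push_cast at k1 k2
    rw [abs_of_nonneg (sub_nonneg.2 m1), abs_of_nonneg (sub_nonneg.2 m2)] at k1
    rw [abs_sub_comm, abs_of_nonneg (sub_nonneg.2 m2), abs_sub_comm,
      abs_of_nonneg (sub_nonneg.2 m1)] at k2
    exact ⟨k1, k2⟩
  intro x t ht
  simpa [abs_of_nonneg ht] using key x t

end Pool.Agent.Lib.THU.FA
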