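import Pool.Agent.Lib.THU.FA.Defs

/-!
An ideal polygon in the Farey tessellation: frames of its sides.
-/

namespace Pool.Agent.Lib.THU.FA.Rib

open Matrix OnePoint

/-- the reflection `z ↦ -z` -/
noncomputable def mR : GZ := mk 1 0 0 (-1) (by simp)
/-- the reflection `z ↦ 1 / z` -/
noncomputable def mJ : GZ := mk 0 1 1 0 (by simp)
/-- the reflection `z ↦ 1 - z` -/
noncomputable def mK : GZ := mk 1 (-1) 0 (-1) (by simp)

lemma mul_ap (A B : GZ) (i j : Fin 2) : (A * B) i j = A i 0 * B 0 j + A i 1 * B 1 j := by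
  simp [Matrix.mul_apply, Fin.sum_univ_two]

lemma ext4 {A B : GZ} (h0 : A 0 0 = B 0 0) (h1 : A 0 1 = B 0 1) (h2 : A 1 0 = B 1 0)
    (h3 : A 1 1 = B 1 1) : A = B := by
  ext i j; fin_cases i <;> fin_cases j <;> assumption

lemma RR : mR * mR = 1 := ext4 rfl rfl rfl rfl
lemma JJ : mJ * mJ = 1 := ext4 rfl rfl rfl rfl
lemma KK : mK * mK = 1 := ext4 rfl rfl rfl rfl
lemma RJ : mR * mJ = -(mJ * mR) := ext4 rfl rfl rfl rfl

/-- the cusp `0` -/
abbrev c0 : P := ((0 : ℚ) : P)
/-- the cusp `1` -/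
abbrev c1 : P := ((1 : ℚ) : P)

lemma smul_c1 (A : GZ) : A • c1 = pt (A 0 0 + A 0 1) (A 1 0 + A 1 1) := by simp [smul_eq_pt]

lemma R_inf : mR • (∞ : P) = ∞ := by simp [smul_inf, mR, pt]
lemma R_c0 : mR • c0 = c0 := by simp [smul_zero', mR, pt]
lemma J_inf : mJ • (∞ : P) = c0 := by simp [smul_inf, mJ, pt]
lemma J_c0 : mJ • c0 = ∞ := by simp [smul_zero', mJ, pt]
lemma J_c1 : mJ • c1 = c1 := by simp [smul_c1, mJ, pt]
lemma K_inf : mK • (∞ : P) = ∞ := by simp [smul_inf, mK, pt]
lemma K_c0 : mK • c0 = c1 := by simp [smul_zero', mK, pt]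
lemma K_c1 : mK • c1 = c0 := by simp [smul_c1, mK, pt]

/-- the three reflections generate the extended modular group -/
lemma gen {U : Set GZ} (h1 : 1 ∈ U) (hR : ∀ A ∈ U, A * mR ∈ U) (hJ : ∀ A ∈ U, A * mJ ∈ U)
    (hK : ∀ A ∈ U, A * mK ∈ U) (A : GZ) : A ∈ U := by
  let H : Subgroup GZ :=
    { carrier := {g | ∀ A, A ∈ U ↔ A * g ∈ U}
      one_mem' := fun A => by rw [mul_one]
      mul_mem' := fun {a b} ha hb A => by rw [← mul_assoc, ← hb, ← ha]
      inv_mem' := fun {a} ha A => by rw [ha (A * a⁻¹), inv_mul_cancel_right] }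
  have m : ∀ g, g * g = 1 → (∀ A ∈ U, A * g ∈ U) → g ∈ H := fun g e h A =>
    ⟨h A, fun h' => by simpa [mul_assoc, e] using h _ h'⟩
  have r := m _ RR hR
  have sl : ∀ B : SpecialLinearGroup (Fin 2) ℤ, SpecialLinearGroup.toGL B ∈ H := fun B => by
    have : Subgroup.closure {ModularGroup.S, ModularGroup.T} ≤ H.comap SpecialLinearGroup.toGL := by
      rw [Subgroup.closure_le]
      rintro _ (rfl | rfl)
      · have e : mJ * mR = SpecialLinearGroup.toGL ModularGroup.S := ext4 rfl rfl rfl rfl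
        exact (e ▸ H.mul_mem (m _ JJ hJ) r : SpecialLinearGroup.toGL ModularGroup.S ∈ H)
      · have e : mK * mR = SpecialLinearGroup.toGL ModularGroup.T := ext4 rfl rfl rfl rfl
        exact (e ▸ H.mul_mem (m _ KK hK) r : SpecialLinearGroup.toGL ModularGroup.T ∈ H)
    exact this (by rw [SpecialLinearGroup.SL2Z_generators]; trivial)
  have one : ∀ B : GZ, B 0 0 * B 1 1 - B 0 1 * B 1 0 = 1 → B ∈ H := fun B e =>
    (Units.ext rfl : SpecialLinearGroup.toGL ⟨B, by rw [det_fin_two, e]⟩ = B) ▸ sl _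
  have : A ∈ H := by
    rcases det_eq A with e | e
    · exact one A e
    · refine (H.mul_mem_cancel_right r).1 (one _ ?_)
      simp only [mul_ap, mR, mk00, mk01, mk10, mk11]
      linarith
  simpa using (this 1).1 h1

/-- the frames of an oriented edge -/
lemma frames {A B : GZ} (h1 : A • (∞ : P) = B • ∞) (h2 : A • c0 = B • c0) :
    A = B ∨ A = -B ∨ A = B * mR ∨ A = -(B * mR) := by
  obtain ⟨C, rfl⟩ : ∃ C, A = B * C := ⟨B⁻¹ * A, by simp⟩
  rw [mul_smul, smul_left_cancel_iff] at h1 h2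
  rw [smul_inf_iff] at h1
  have h3 : C 0 1 = 0 := by
    have : (mJ * C * mJ) • (∞ : P) = ∞ := by rw [mul_smul, mul_smul, J_inf, h2, J_c0]
    simpa [smul_inf_iff, mul_ap, mJ] using this
  have d := det_eq C
  rw [h1, h3, mul_zero, sub_zero, Int.mul_eq_one_iff_eq_one_or_neg_one,
    Int.mul_eq_neg_one_iff_eq_one_or_neg_one] at d
  rw [← mul_neg, ← mul_neg_one B]
  rcases d with (⟨a, b⟩ | ⟨a, b⟩) | ⟨a, b⟩ | ⟨a, b⟩
  · exact Or.inl (by rw [ext4 (B := 1) a h3 h1 b, mul_one])
  · exact Or.inr (Or.inl (by rw [ext4 (B := -1) a h3 h1 b]))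
  · exact Or.inr (Or.inr (Or.inl (by rw [ext4 (B := mR) a h3 h1 b])))
  · exact Or.inr (Or.inr (Or.inr (by rw [ext4 (B := -mR) a h3 h1 b])))

/-- positive on the image of the positive numbers, negative on the image of the negative ones -/
def Qp (A : GZ) (p : P) : ℤ := (nu p * A 1 1 - de p * A 0 1) * (A 0 0 * de p - A 1 0 * nu p)

lemma Qp_smul (B A : GZ) (p : P) : Qp (B * A) (B • p) = Qp A p := by
  obtain ⟨ε, h0, h1, h2⟩ := vec_smul B p
  have e : ε * ε = 1 := by rcases h0 with rfl | rfl <;> rfl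
  have d : (B 0 0 * B 1 1 - B 0 1 * B 1 0) ^ 2 = 1 := by rcases det_eq B with h | h <;> rw [h] <;> rfl
  have : Qp (B * A) (B • p) = ε * ε * (B 0 0 * B 1 1 - B 0 1 * B 1 0) ^ 2 * Qp A p := by
    simp only [Qp, h1, h2, mul_ap]; ring
  rw [this, e, d, one_mul, one_mul]

lemma Qp_R (A : GZ) (p : P) : Qp (A * mR) p = -Qp A p := by
  simp only [Qp, mul_ap, mR, mk00, mk01, mk10, mk11]; ring
lemma Qp_J (A : GZ) (p : P) : Qp (A * mJ) p = Qp A p := by
  simp only [Qp, mul_ap, mJ, mk00, mk01, mk10, mk11]; ring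
lemma Qp_neg (A : GZ) (p : P) : Qp (-A) p = Qp A p := by
  simp only [Qp, Units.val_neg, Matrix.neg_apply]; ring
lemma Qp_c1 (A : GZ) : 0 < Qp A (A • c1) := by
  have := Qp_smul A 1 c1
  rw [mul_one] at this
  rw [this]; simp [Qp]

/-- frames of the sides of the polygon with vertices `0, 1, .., N, ∞` -/
noncomputable def fr (N i : ℕ) : GZ :=
  if i < N then mk i (i + 1) 1 1 (by simp) else if i = N then mk N 1 1 0 (by simp) else mR

/-- the vertices of the polygon -/
def Vt (N : ℕ) (p : P) : Prop := p = ∞ ∨ ∃ i : ℕ, i ≤ N ∧ p = (i : ℚ)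

/-- the vertices, in cyclic order -/
def vx (N i : ℕ) : P := if i = N + 1 then ∞ else if i ≤ N then (i : ℚ) else c0

lemma fr_inf {N i : ℕ} (h : i ≤ N + 1) : fr N i • (∞ : P) = vx N i := by
  unfold fr vx
  split_ifs <;> first | omega | simp_all [smul_inf, pt, mR]

lemma fr_c0 {N i : ℕ} (h : i ≤ N + 1) : fr N i • c0 = vx N (i + 1) := by
  unfold fr vx
  split_ifs <;> first | omega | simp_all [smul_zero', pt, mR]

lemma vx_last (N : ℕ) : vx N (N + 2) = vx N 0 := by simp [vx]

lemma vt_vx (N i : ℕ) : Vt N (vx N i) := by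
  unfold vx
  split_ifs with h1 h2
  · exact Or.inl rfl
  · exact Or.inr ⟨i, h2, rfl⟩
  · exact Or.inr ⟨0, Nat.zero_le _, by simp⟩

lemma Vt.exists {N : ℕ} {p : P} (h : Vt N p) : ∃ i ≤ N + 1, p = vx N i := by
  rcases h with rfl | ⟨i, hi, rfl⟩
  · exact ⟨N + 1, le_rfl, by simp [vx]⟩
  · exact ⟨i, by omega, by rw [vx, if_neg (by omega), if_pos hi]⟩

lemma vt_finite (N : ℕ) : {p | Vt N p}.Finite :=
  ((Set.finite_le_nat (N + 1)).image (vx N)).subset fun _ h =>
    let ⟨i, hi, e⟩ := Vt.exists h; ⟨i, hi, e.symm⟩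

/-- the inner apex of a side is a vertex -/
lemma vt_apex {N : ℕ} (hN : 1 ≤ N) (i : ℕ) : Vt N ((fr N i * mR) • c1) := by
  unfold fr
  split_ifs with h1 h2
  · exact Or.inl (by simp [smul_c1, mul_ap, mR, pt])
  · exact Or.inr ⟨N - 1, by omega, by simp [smul_c1, mul_ap, mR, pt, hN, sub_eq_add_neg]⟩
  · exact Or.inr ⟨1, hN, by simp [RR]⟩

/-- the outer arc of a side lies in the inner arc of every other side -/
lemma outer {N i k : ℕ} (hi : i ≤ N + 1) (hk : k ≤ N + 1) (ne : i ≠ k) {p : P}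
    (h : 0 < Qp (fr N i) p) : Qp (fr N k) p < 0 := by
  have y0 := de_nonneg p
  unfold Qp fr at *
  generalize nu p = x at *
  generalize de p = y at *
  have mono : ∀ a b : ℕ, a ≤ b → (a : ℤ) * y ≤ b * y := fun a b e =>
    mul_le_mul_of_nonneg_right (by exact_mod_cast e) y0
  have key : (i < N → i * y < x ∧ x < (i + 1) * y) ∧ (i = N → N * y < x ∧ 0 < y) ∧
      (i = N + 1 → x < 0 ∧ 0 < y) := by
    refine ⟨fun e => ?_, fun e => ?_, fun e => ?_⟩
    · simp only [e, if_true, mk00, mk01, mk10, mk11] at h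
      rcases pos_and_pos_or_neg_and_neg_of_mul_pos h with h | h <;> constructor <;> linarith [h.1, h.2]
    · simp only [e, lt_irrefl, if_true, if_false, mk00, mk01, mk10, mk11] at h
      rcases pos_and_pos_or_neg_and_neg_of_mul_pos h with h | h <;> constructor <;> linarith [h.1, h.2]
    · rw [if_neg (by omega), if_neg (by omega)] at h
      simp only [mR, mk00, mk01, mk10, mk11] at h
      rcases pos_and_pos_or_neg_and_neg_of_mul_pos h with h | h <;> constructor <;> nlinarith [h.1, h.2]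
  clear h
  have z : (0 : ℤ) ≤ i * y := by positivity
  split_ifs with h1 h2 <;> simp only [mR, mk00, mk01, mk10, mk11]
  · rcases lt_or_gt_of_ne ne with e | e
    · have := mono _ _ (Nat.succ_le_of_lt e)
      have := key.1 (by omega)
      push_cast at *
      exact mul_neg_of_neg_of_pos (by linarith) (by linarith)
    · have := mono _ _ (Nat.succ_le_of_lt e)
      push_cast at this
      rcases (by omega : i < N ∨ i = N ∨ i = N + 1) with c | c | c
      · have := key.1 c
        exact mul_neg_of_pos_of_neg (by linarith) (by linarith)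
      · have := key.2.1 c
        subst c
        exact mul_neg_of_pos_of_neg (by linarith) (by linarith)
      · have := key.2.2 c
        have : (0 : ℤ) ≤ k * y := by positivity
        exact mul_neg_of_neg_of_pos (by linarith) (by linarith)
  · rcases (by omega : i < N ∨ i = N + 1) with c | c
    · have := key.1 c
      have := mono _ _ (Nat.succ_le_of_lt c)
      push_cast at this
      exact mul_neg_of_neg_of_pos (by linarith) (by linarith)
    · have := key.2.2 c
      have : (0 : ℤ) ≤ N * y := by positivity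
      exact mul_neg_of_neg_of_pos (by linarith) (by linarith)
  · rcases (by omega : i < N ∨ i = N) with c | c
    · have := key.1 c
      exact mul_neg_of_neg_of_pos (by linarith) (by linarith)
    · have := key.2.1 c
      subst c
      exact mul_neg_of_neg_of_pos (by linarith) (by linarith)

lemma nb_inf {t : P} (h : |D ∞ t| = 1) : ∃ a : ℤ, t = (a : ℚ) := by
  cases t using OnePoint.rec with
  | infty => simp [D] at h
  | coe q =>
    have : q.den = 1 := by simpa [D] using h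
    exact ⟨q.num, by rw [Rat.coe_int_num_of_den_eq_one this]⟩

/-- an edge between vertices is a side or both its apexes are vertices -/
lemma side_or {N : ℕ} {p q : P} (hp : Vt N p) (hq : Vt N q) (h : |D p q| = 1) :
    (∃ i ≤ N + 1, p = vx N i ∧ q = vx N (i + 1) ∨ q = vx N i ∧ p = vx N (i + 1)) ∨
      ∀ t, |D p t| = 1 → |D q t| = 1 → Vt N t := by
  have v : ∀ i ≤ N, vx N i = (i : ℚ) := fun i hi => by rw [vx, if_neg (by omega), if_pos hi]
  have w : vx N (N + 1) = ∞ := by simp [vx]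
  have A : ∀ i ≤ N, (i = 0 ∨ i = N) ∨ ∀ t, |D ∞ t| = 1 → |D ((i : ℚ) : P) t| = 1 → Vt N t := by
    intro i hi
    refine (em _).imp_right fun e t h1 h2 => Or.inr ?_
    obtain ⟨a, rfl⟩ := nb_inf h1
    have := (abs_eq zero_le_one).1 (show |(i : ℤ) - a| = 1 by simpa [D] using h2)
    obtain ⟨j, rfl⟩ := Int.eq_ofNat_of_zero_le (a := a) (by omega)
    exact ⟨j, by omega, by simp⟩
  rcases hp with rfl | ⟨i, hi, rfl⟩ <;> rcases hq with rfl | ⟨j, hj, rfl⟩
  · simp [D] at h
  · rcases A j hj with (rfl | rfl) | e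
    · exact Or.inl ⟨N + 1, le_rfl, Or.inl ⟨w.symm, by simp [vx]⟩⟩
    · exact Or.inl ⟨j, by omega, Or.inr ⟨(v j hj).symm, w.symm⟩⟩
    · exact Or.inr e
  · rcases A i hi with (rfl | rfl) | e
    · exact Or.inl ⟨N + 1, le_rfl, Or.inr ⟨w.symm, by simp [vx]⟩⟩
    · exact Or.inl ⟨i, by omega, Or.inl ⟨(v i hi).symm, w.symm⟩⟩
    · exact Or.inr fun t a b => e t b a
  · have := (abs_eq zero_le_one).1 (show |(i : ℤ) - j| = 1 by simpa [D] using h)
    rcases (by omega : j = i + 1 ∨ i = j + 1) with rfl | rfl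
    · exact Or.inl ⟨i, by omega, Or.inl ⟨(v i hi).symm, (v _ hj).symm⟩⟩
    · exact Or.inl ⟨j, by omega, Or.inr ⟨(v j hj).symm, (v _ hi).symm⟩⟩

end Pool.Agent.Lib.THU.FA.Rib
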