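import Pool.Agent.Lib.THU.FA.RibGeo
import Pool.Agent.Lib.FBC.RIB.Base

/-!
Side pairings of an ideal polygon generate a free lattice.
-/

namespace Pool.Agent.Lib.THU.FA.Rib

open Matrix OnePoint Relation Pool.Agent.Lib.FBC.RIB

/-- cyclic numbering of a transitive dihedral action -/
lemma number {Φ : Type} [Finite Φ] (n o : Equiv.Perm Φ) (nn : n * n = 1) (oo : o * o = 1)
    (nne : ∀ x, n x ≠ x) (one : ∀ x, o x ≠ x) (x0 : Φ)
    (conn : ∀ x y, EqvGen (fun a b => b = o a ∨ b = n a) x y) :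
    ∃ (M : ℕ) (f : ℕ → Φ), 0 < M ∧ f M = f 0 ∧ (∀ i, n (o (f i)) = f (i + 1)) ∧
      Function.Bijective fun t : Fin M × Bool => cond t.2 (o (f t.1)) (f t.1) := by
  have o2 : ∀ x, o (o x) = x := fun x => congrArg (fun g : Equiv.Perm Φ => g x) oo
  have n2 : ∀ x, n (n x) = x := fun x => congrArg (fun g : Equiv.Perm Φ => g x) nn
  have hp : x0 ∈ Function.periodicPts (n * o) := (n * o).injective.mem_periodicPts x0
  have pos := Function.minimalPeriod_pos_of_mem_periodicPts hp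
  set M := Function.minimalPeriod (n * o) x0
  have st : ∀ i, n (o ((n * o)^[i] x0)) = (n * o)^[i + 1] x0 := fun i =>
    (Function.iterate_succ_apply' (n * o) i x0).symm
  have per : (n * o)^[M] x0 = x0 := Function.iterate_minimalPeriod
  have ne : ∀ i j, o ((n * o)^[i] x0) ≠ (n * o)^[j] x0 := fun i j h =>
    dih o n oo nn one nne ((n * o)^[i] x0) (j - i) (by
      rw [h, Equiv.Perm.iterate_eq_pow, Equiv.Perm.iterate_eq_pow, ← Equiv.Perm.mul_apply,
        ← zpow_natCast, ← zpow_natCast, ← _root_.zpow_add, sub_add_cancel])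
  have inj : ∀ i j : Fin M, (n * o)^[i] x0 = (n * o)^[j] x0 → i = j := fun i j h =>
    Fin.ext (Function.iterate_injOn_Iio_minimalPeriod i.2 j.2 h)
  refine ⟨M, fun i => (n * o)^[i] x0, pos, per, st, ?_, fun x => ?_⟩
  · rintro ⟨i, _ | _⟩ ⟨j, _ | _⟩ h
    · rw [inj i j h]
    · exact (ne _ _ h.symm).elim
    · exact (ne _ _ h).elim
    · rw [inj i j (o.injective h)]
  · let A : Φ → Prop := fun x => ∃ i : ℕ, x = (n * o)^[i] x0 ∨ x = o ((n * o)^[i] x0)
    have o1 : ∀ x, A x → A (o x) := by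
      rintro _ ⟨i, rfl | rfl⟩
      · exact ⟨i, Or.inr rfl⟩
      · exact ⟨i, Or.inl (o2 _)⟩
    have n1 : ∀ x, A x → A (n x) := by
      rintro _ ⟨i, rfl | rfl⟩
      · refine ⟨i + M - 1, Or.inr ?_⟩
        rw [← n2 (o _), st, show i + M - 1 + 1 = i + M by omega, Function.iterate_add_apply, per]
      · exact ⟨i + 1, Or.inl (st i)⟩
    have key : ∀ x y, EqvGen (fun a b => b = o a ∨ b = n a) x y → (A x ↔ A y) := by
      intro x y h
      induction h with
      | rel x y h =>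
        rcases h with rfl | rfl
        · exact ⟨o1 x, fun h => o2 x ▸ o1 _ h⟩
        · exact ⟨n1 x, fun h => n2 x ▸ n1 _ h⟩
      | refl => rfl
      | symm _ _ _ ih => exact ih.symm
      | trans _ _ _ _ _ i1 i2 => exact i1.trans i2
    obtain ⟨i, h⟩ := (key x0 x (conn _ _)).1 ⟨0, Or.inl rfl⟩
    rw [← Function.iterate_mod_minimalPeriod_eq] at h
    rcases h with h | h
    · exact ⟨(⟨_, Nat.mod_lt i pos⟩, false), h.symm⟩
    · exact ⟨(⟨_, Nat.mod_lt i pos⟩, true), h.symm⟩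

/-- frames for the flags of the polygon -/
lemma exists_frames {m : ℕ} (hm : 2 ≤ m) {Φ : Type} [Finite Φ] (n o : Equiv.Perm Φ)
    (side : Φ → Fin m × Bool) (nn : n * n = 1) (oo : o * o = 1) (nne : ∀ x, n x ≠ x)
    (one : ∀ x, o x ≠ x) (so : ∀ x, side (o x) = side x) (ss : Function.Surjective side)
    (conn : ∀ x y, EqvGen (fun a b => b = o a ∨ b = n a) x y) :
    ∃ (N : ℕ) (E : Φ → GZ), 1 ≤ N ∧ (∀ x, E (o x) = E x * mJ) ∧
      (∀ x, E (n x) • (∞ : P) = E x • ∞) ∧ (∀ x, Vt N (E x • ∞)) ∧ (∀ x, Vt N ((E x * mR) • c1)) ∧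
      (∀ i ≤ N + 1, ∃ x, E x = fr N i) ∧
      ∀ x y, side x ≠ side y → ∀ p, 0 < Qp (E x) p → Qp (E y) p < 0 := by
  have o2 : ∀ x, o (o x) = x := fun x => congrArg (fun g : Equiv.Perm Φ => g x) oo
  have n2 : ∀ x, n (n x) = x := fun x => congrArg (fun g : Equiv.Perm Φ => g x) nn
  obtain ⟨x0, -⟩ := ss (⟨0, by omega⟩, true)
  obtain ⟨M, f, pos, per, st, bij⟩ := number n o nn oo nne one x0 conn
  have h4 : 4 ≤ M := by
    have : Function.Surjective fun i : Fin M => side (f i) := fun z => by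
      obtain ⟨x, rfl⟩ := ss z
      obtain ⟨⟨i, _ | _⟩, rfl⟩ := bij.2 x
      · exact ⟨i, rfl⟩
      · exact ⟨i, (so _).symm⟩
    have := Fintype.card_le_of_surjective _ this
    simp only [Fintype.card_prod, Fintype.card_fin, Fintype.card_bool] at this
    omega
  obtain ⟨N, rfl⟩ : ∃ N, M = N + 2 := ⟨M - 2, by omega⟩
  let e := Equiv.ofBijective _ bij
  let E : Φ → GZ := fun x => cond (e.symm x).2 (fr N (e.symm x).1 * mJ) (fr N (e.symm x).1)
  have E0 : ∀ i : Fin (N + 2), E (f i) = fr N i := fun i => by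
    simp only [E, show f i = e (i, false) from rfl, e.symm_apply_apply, cond_false]
  have E1 : ∀ i : Fin (N + 2), E (o (f i)) = fr N i * mJ := fun i => by
    simp only [E, show o (f i) = e (i, true) from rfl, e.symm_apply_apply, cond_true]
  have cs : ∀ x, ∃ i : Fin (N + 2), x = f i ∨ x = o (f i) := fun x => by
    obtain ⟨⟨i, _ | _⟩, rfl⟩ := bij.2 x
    · exact ⟨i, Or.inl rfl⟩
    · exact ⟨i, Or.inr rfl⟩
  have le : ∀ i : Fin (N + 2), (i : ℕ) ≤ N + 1 := fun i => Nat.le_of_lt_succ i.2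
  have V0 : ∀ i ≤ N + 2, E (f i) • (∞ : P) = vx N i := fun i hi => by
    rcases hi.eq_or_lt with rfl | hi
    · rw [per, vx_last]; exact (congrArg (· • ∞) (E0 0)).trans (fr_inf (by simp))
    · exact (congrArg (· • ∞) (E0 ⟨i, hi⟩)).trans (fr_inf (by omega))
  have V1 : ∀ i : Fin (N + 2), E (o (f i)) • (∞ : P) = vx N (i + 1) := fun i => by
    rw [E1, mul_smul, J_inf, fr_c0 (le i)]
  have Q : ∀ x, ∃ i : Fin (N + 2), side x = side (f i) ∧ ∀ p, Qp (E x) p = Qp (fr N i) p := fun x => by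
    obtain ⟨i, rfl | rfl⟩ := cs x
    · exact ⟨i, rfl, fun p => by rw [E0]⟩
    · exact ⟨i, so _, fun p => by rw [E1, Qp_J]⟩
  refine ⟨N, E, by omega, fun x => ?_, fun x => ?_, fun x => ?_, fun x => ?_,
    fun i hi => ⟨_, E0 ⟨i, by omega⟩⟩, fun x y h p hp => ?_⟩
  · obtain ⟨i, rfl | rfl⟩ := cs x
    · rw [E1, E0]
    · rw [o2, E1, E0, mul_assoc, JJ, mul_one]
  · have k : ∀ i : Fin (N + 2), E (n (o (f i))) • (∞ : P) = E (o (f i)) • ∞ := fun i => by
      rw [st, V0 _ (Nat.succ_le_of_lt i.2), V1]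
    obtain ⟨i, rfl | rfl⟩ := cs x
    · obtain ⟨j, h⟩ : ∃ j : Fin (N + 2), f (j + 1) = f i := by
        rcases i with ⟨_ | i, hi⟩
        · exact ⟨⟨N + 1, by omega⟩, per⟩
        · exact ⟨⟨i, by omega⟩, rfl⟩
      rw [← h, ← st, n2, k]
    · exact k i
  · obtain ⟨i, rfl | rfl⟩ := cs x
    · rw [V0 _ i.2.le]; exact vt_vx _ _
    · rw [V1]; exact vt_vx _ _
  · obtain ⟨i, rfl | rfl⟩ := cs x
    · rw [E0]; exact vt_apex (by omega) _
    · rw [E1, mul_assoc, ← neg_smul', ← mul_neg, ← RJ, ← mul_assoc, mul_smul, J_c1]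
      exact vt_apex (by omega) _
  · obtain ⟨i, h1, h2⟩ := Q x
    obtain ⟨j, h3, h4⟩ := Q y
    rw [h2] at hp
    rw [h4]
    exact outer (le i) (le j) (fun t => h (by rw [h1, h3, t])) hp

theorem poly {m : ℕ} (hm : 2 ≤ m) {Φ : Type} [Finite Φ] (r n o : Equiv.Perm Φ)
    (side : Φ → Fin m × Bool) (rr : ∀ x, r (r x) = x) (nn : n * n = 1) (oo : o * o = 1)
    (ro : ∀ x, r (o x) = o (r x)) (nne : ∀ x, n x ≠ x) (one : ∀ x, o x ≠ x)
    (so : ∀ x, side (o x) = side x) (sr : ∀ x, side (r x) = linv (side x))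
    (su : ∀ x y, side x = side y → y = x ∨ y = o x) (ss : Function.Surjective side)
    (conn : ∀ x y, EqvGen (fun a b => b = o a ∨ b = n a) x y) :
    ∃ (s : FreeGroup (Fin m) →* GZ) (v : Φ → P), Lat s ∧ (∀ x, v (n x) = v x) ∧
      (∀ x, s (FreeGroup.mk [side x]) • v (r x) = v x) ∧ ∀ p, ∃ g x, p = s g • v x := by
  obtain ⟨N, E, hN, Eo, En, Ev, Ea, Ef, Eq⟩ := exists_frames hm n o side nn oo nne one so ss conn
  choose ξ hξ using fun i : Fin m => ss (i, true)
  let s : FreeGroup (Fin m) →* GZ := FreeGroup.lift fun i => E (ξ i) * mR * (E (r (ξ i)))⁻¹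
  have k1 : ∀ x i, side x = (i, true) → s (FreeGroup.of i) * E (r x) = E x * mR ∨
      s (FreeGroup.of i) * E (r x) = -(E x * mR) := fun x i h => by
    rw [FreeGroup.lift_apply_of]
    rcases su _ x ((hξ i).trans h.symm) with rfl | rfl
    · exact Or.inl (inv_mul_cancel_right _ _)
    · right
      rw [ro, Eo, Eo, ← mul_assoc, inv_mul_cancel_right, mul_assoc, RJ, mul_neg, mul_assoc]
  have key : ∀ x, s (FreeGroup.mk [side x]) * E (r x) = E x * mR ∨
      s (FreeGroup.mk [side x]) * E (r x) = -(E x * mR) := fun x => by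
    rcases h : side x with ⟨i, _ | _⟩
    · have := k1 (r x) i (by rw [sr, h]; rfl)
      rw [rr] at this
      rw [show FreeGroup.mk [(i, false)] = (FreeGroup.of i)⁻¹ from rfl, map_inv,
        inv_mul_eq_iff_eq_mul, inv_mul_eq_iff_eq_mul, mul_neg, ← mul_assoc]
      rcases this with e | e <;> simp [e, mul_assoc, RR]
    · exact k1 x i h
  have pp : ∀ x y p, side y ≠ linv (side x) → 0 < Qp (E y) p →
      0 < Qp (E x) (s (FreeGroup.mk [side x]) • p) := fun x y p h hp => by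
    have h1 := Eq y (r x) (by rwa [sr]) p hp
    rw [← Qp_smul (s (FreeGroup.mk [side x]))] at h1
    rcases key x with e | e <;> simpa [e, Qp_neg, Qp_R] using h1
  have nr : ∀ a b : Fin m × Bool, (a.1 = b.1 → a.2 = b.2) ↔ b ≠ linv a := by
    rintro ⟨i, a⟩ ⟨j, b⟩
    cases a <;> cases b <;> simp [linv, eq_comm]
  have png : ∀ y p, 0 < Qp (E y) p → ∀ (L : List (Fin m × Bool)) x,
      FreeGroup.IsReduced (side x :: (L ++ [side y])) →
      0 < Qp (E x) (s (FreeGroup.mk (side x :: L)) • p) := fun y p hp L => by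
    induction L with
    | nil => exact fun x h => pp x y p ((nr _ _).1 (List.isChain_cons_cons.1 h).1) hp
    | cons z L ih =>
      obtain ⟨z, rfl⟩ := ss z
      intro x h
      obtain ⟨h1, h2⟩ := List.isChain_cons_cons.1 h
      rw [← List.singleton_append, ← FreeGroup.mul_mk, map_mul, mul_smul]
      exact pp x z _ ((nr _ _).1 h1) (ih z h2)
  let S : Set GZ := {B | Vt N (B • ∞) ∧ Vt N (B • c0) ∧ Vt N (B • c1)}
  have Sn : ∀ B ∈ S, -B ∈ S := fun B h => by simpa only [S, Set.mem_ofPred_eq, neg_smul'] using h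
  have SE : ∀ x, E x * mR ∈ S := fun x =>
    ⟨by rw [mul_smul, R_inf]; exact Ev x,
      by rw [mul_smul, R_c0, ← J_inf, ← mul_smul, ← Eo]; exact Ev _, Ea x⟩
  have all : ∀ A, A ∈ {A | ∃ g, ∃ B ∈ S, A = s g * B} := by
    have cl : ∀ T : GZ, (∀ B ∈ S, ∃ g, ∃ C ∈ S, B * T = s g * C) →
        ∀ A ∈ {A | ∃ g, ∃ B ∈ S, A = s g * B}, A * T ∈ {A | ∃ g, ∃ B ∈ S, A = s g * B} := by
      rintro T h _ ⟨g, B, hB, rfl⟩
      obtain ⟨g', C, hC, e⟩ := h B hB
      exact ⟨g * g', C, hC, by rw [mul_assoc, e, map_mul, mul_assoc]⟩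
    refine gen ⟨1, 1, ⟨Or.inl (one_smul _ _), Or.inr ⟨0, by omega, by simp⟩,
      Or.inr ⟨1, hN, by simp⟩⟩, by simp⟩ (cl _ fun B hB => ?_)
      (cl _ fun B ⟨a, b, c⟩ => ⟨1, B * mJ, ?_, by simp⟩)
      (cl _ fun B ⟨a, b, c⟩ => ⟨1, B * mK, ?_, by simp⟩)
    · have d : |D (B • ∞) (B • c0)| = 1 := by rw [abs_D_smul]; simp [D]
      have sd : ∀ x, B • (∞ : P) = E x • ∞ → B • c0 = E x • c0 →
          ∃ g, ∃ C ∈ S, B * mR = s g * C := fun x h1 h2 => by
        have hx : ∃ g, ∃ C ∈ S, E x = s g * C := by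
          refine ⟨FreeGroup.mk [side x], ?_⟩
          rcases key x with e | e
          · exact ⟨_, SE (r x), by rw [← mul_assoc, e, mul_assoc, RR, mul_one]⟩
          · exact ⟨_, Sn _ (SE (r x)), by
              rw [mul_neg, ← mul_assoc, e, neg_mul, neg_neg, mul_assoc, RR, mul_one]⟩
        rcases frames h1 h2 with rfl | rfl | rfl | rfl
        · exact ⟨1, _, SE x, by simp⟩
        · exact ⟨1, _, Sn _ (SE x), by simp⟩
        · simpa only [mul_assoc, RR, mul_one] using hx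
        · obtain ⟨g, C, hC, e⟩ := hx
          exact ⟨g, _, Sn _ hC, by rw [neg_mul, mul_assoc, RR, mul_one, e, mul_neg]⟩
      rcases side_or hB.1 hB.2.1 d with ⟨i, hi, ⟨h1, h2⟩ | ⟨h1, h2⟩⟩ | h
      · obtain ⟨x, hx⟩ := Ef i hi
        exact sd x (by rw [hx, fr_inf hi, h1]) (by rw [hx, fr_c0 hi, h2])
      · obtain ⟨x, hx⟩ := Ef i hi
        exact sd (o x) (by rw [Eo, mul_smul, J_inf, hx, fr_c0 hi, h2])
          (by rw [Eo, mul_smul, J_c0, hx, fr_inf hi, h1])
      · refine ⟨1, B * mR, ⟨by rw [mul_smul, R_inf]; exact hB.1,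
          by rw [mul_smul, R_c0]; exact hB.2.1, h _ ?_ ?_⟩, by simp⟩
        · rw [← R_inf, ← mul_smul, abs_D_smul]; simp [D]
        · rw [← R_c0, ← mul_smul, abs_D_smul]; simp [D]
    · exact ⟨by rwa [mul_smul, J_inf], by rwa [mul_smul, J_c0], by rwa [mul_smul, J_c1]⟩
    · exact ⟨by rwa [mul_smul, K_inf], by rwa [mul_smul, K_c0], by rwa [mul_smul, K_c1]⟩
  have fin : S.Finite := by
    refine Set.Finite.of_finite_fibers (fun B => (B • (∞ : P), B • c0))
      (((vt_finite N).prod (vt_finite N)).subset ?_) ?_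
    · rintro _ ⟨B, hB, rfl⟩
      exact ⟨hB.1, hB.2.1⟩
    · rintro _ ⟨B, -, rfl⟩
      exact (Set.toFinite {B, -B, B * mR, -(B * mR)}).subset fun A h =>
        frames (congrArg Prod.fst h.2) (congrArg Prod.snd h.2)
  refine ⟨s, fun x => E x • ∞, ⟨fun w hw => by_contra fun ne => ?_, ⟨fin.toFinset, fun A => ?_⟩,
    fun x k hk => tf_of_free _ inferInstance x k hk.ne'⟩, En, fun x => ?_, fun p => ?_⟩
  · obtain ⟨z, L, e⟩ := List.exists_cons_of_ne_nil (mt FreeGroup.toWord_eq_nil_iff.1 ne)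
    obtain ⟨x, rfl⟩ := ss z
    obtain ⟨t, t1, t2⟩ : ∃ t, t ≠ side x ∧ t ≠ linv ((side x :: L).getLast (by simp)) := by
      by_contra! h
      have : (Finset.univ : Finset (Fin m × Bool)) ⊆
          {side x, linv ((side x :: L).getLast (by simp))} := fun t _ => by
        simpa only [Finset.mem_insert, Finset.mem_singleton] using (em _).imp_right (h t)
      have := (Finset.card_le_card this).trans Finset.card_le_two
      simp only [Finset.card_univ, Fintype.card_prod, Fintype.card_fin, Fintype.card_bool] at this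
      omega
    obtain ⟨y, rfl⟩ := ss t
    have red : FreeGroup.IsReduced (side x :: L) := e ▸ FreeGroup.isReduced_toWord
    have := png y _ (Qp_c1 _) L x (List.IsChain.append (l₁ := side x :: L) red (by simp) (by
      simpa [List.getLast?_eq_some_getLast (l := side x :: L) (by simp)] using (nr _ _).2 t2))
    rw [← e, FreeGroup.mk_toWord] at this
    have h2 := Eq y x t1 _ (Qp_c1 _)
    rcases hw with hw | hw
    · rw [hw, one_smul] at this; omega
    · rw [hw, neg_smul', one_smul] at this; omega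
  · obtain ⟨g, B, hB, e⟩ := all A
    exact ⟨g, B, fin.mem_toFinset.2 hB, e⟩
  · rw [← mul_smul]
    rcases key x with e | e <;> simp only [e, neg_smul', mul_smul, R_inf]
  · obtain ⟨A, rfl⟩ := exists_inf p
    obtain ⟨g, B, hB, rfl⟩ := all A
    obtain ⟨i, hi, e⟩ := hB.1.exists
    obtain ⟨x, hx⟩ := Ef i hi
    exact ⟨g, x, by simp only [mul_smul, e, hx, fr_inf hi]⟩

end Pool.Agent.Lib.THU.FA.Rib
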